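import Pool.Agent.RNB.Targets

/-!
# RNB, target AUT: automorphisms and weights of sequences
-/

set_option autoImplicit false

open Finset Classical

namespace Pool.Agent.RNB

open Pool.Agent.Lib.Recon

namespace AUT_

variable {V : Type} [Fintype V]

theorem ww_nonneg {k : ℕ} (G : SimpleGraph V) (A : Finset V) (x : Fin k → V) :
    0 ≤ ww G A x := by
  unfold ww
  exact Finset.prod_nonneg fun i _ => by positivity

theorem mem_aut {G : SimpleGraph V} {A0 A : Finset V} {σ : Equiv.Perm V} :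
    σ ∈ Aut0 G A0 A ↔ (∀ v, v ∉ A → σ v = v) ∧ (∀ v ∈ A0, σ v = v) ∧
      ∀ a ∈ A, ∀ b ∈ A, (G.Adj a b ↔ G.Adj (σ a) (σ b)) := by
  unfold Aut0
  rw [Finset.mem_filter]
  exact ⟨fun h => h.2, fun h => ⟨Finset.mem_univ _, h⟩⟩

/-- `σ` maps `A` onto `A` -/
theorem image_eq {A : Finset V} {σ : Equiv.Perm V} (h : ∀ v, v ∉ A → σ v = v) :
    A.image σ = A := by
  apply Finset.eq_of_subset_of_card_le
  · intro b hb
    rw [Finset.mem_image] at hb
    obtain ⟨a, ha, rfl⟩ := hb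
    by_contra hcon
    have h1 := h _ hcon
    exact hcon ((σ.injective h1).symm ▸ ha)
  · rw [Finset.card_image_of_injective _ σ.injective]

theorem mem_of {A0 A : Finset V} {k : ℕ} {x : Fin k → V} (hx : A0 ∪ univ.image x = A)
    (i : Fin k) : x i ∈ A := by
  rw [← hx]
  exact Finset.mem_union_right _ (Finset.mem_image_of_mem x (Finset.mem_univ i))

theorem sim_comp {G : SimpleGraph V} {A0 A : Finset V} {k : ℕ} {x : Fin k → V} (hA : A0 ⊆ A)
    (hx : A0 ∪ univ.image x = A) {σ : Equiv.Perm V} (hσ : σ ∈ Aut0 G A0 A) :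
    Sim G A0 x (fun i => σ (x i)) := by
  rw [mem_aut] at hσ
  obtain ⟨-, h2, h3⟩ := hσ
  refine ⟨fun i j => σ.injective.eq_iff.symm, fun i a ha => ?_, fun i j => ?_, fun i a ha => ?_⟩
  · show x i = a ↔ σ (x i) = a
    constructor
    · intro h
      rw [h]
      exact h2 a ha
    · intro h
      apply σ.injective
      rw [h, h2 a ha]
  · exact h3 _ (mem_of hx i) _ (mem_of hx j)
  · have := h3 a (hA ha) _ (mem_of hx i)
    rwa [h2 a ha] at this

theorem inj_comp {G : SimpleGraph V} {A0 A : Finset V} {k : ℕ} {x : Fin k → V}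
    (hx : A0 ∪ univ.image x = A) {σ τ : Equiv.Perm V} (hσ : σ ∈ Aut0 G A0 A)
    (hτ : τ ∈ Aut0 G A0 A) (h : (fun i => σ (x i)) = fun i => τ (x i)) : σ = τ := by
  rw [mem_aut] at hσ hτ
  apply Equiv.ext
  intro v
  by_cases hv : v ∈ A
  · rw [← hx, Finset.mem_union, Finset.mem_image] at hv
    rcases hv with hv | ⟨i, -, rfl⟩
    · rw [hσ.2.1 v hv, hτ.2.1 v hv]
    · exact congrFun h i
  · rw [hσ.1 v hv, hτ.1 v hv]

/-- the sum over the automorphisms for one sequence -/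
theorem sum_aut (hT : T_TRE) {G : SimpleGraph V} {A0 A : Finset V} {k : ℕ} {x : Fin k → V}
    (hA : A0 ⊆ A) (hx : A0 ∪ univ.image x = A) :
    ∑ σ ∈ Aut0 G A0 A, ww G A0 (fun i => σ (x i)) ≤ 1 := by
  refine le_trans ?_ (hT V G A0 k x)
  rw [← Finset.sum_image (s := Aut0 G A0 A) (g := fun σ : Equiv.Perm V => fun i => σ (x i))
    (f := fun y => ww G A0 y) (fun σ hσ τ hτ h => inj_comp hx hσ hτ h)]
  refine Finset.sum_le_sum_of_subset_of_nonneg ?_ fun y _ _ => ww_nonneg _ _ _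
  intro y hy
  rw [Finset.mem_image] at hy
  obtain ⟨σ, hσ, rfl⟩ := hy
  rw [Finset.mem_filter]
  exact ⟨Finset.mem_univ _, sim_comp hA hx hσ⟩

/-- moving the sequences by one automorphism -/
theorem sum_move {G : SimpleGraph V} {A0 A : Finset V} (k : ℕ) {σ : Equiv.Perm V}
    (hσ : σ ∈ Aut0 G A0 A) (F : (Fin k → V) → ℝ) :
    ∑ x ∈ univ.filter (fun x : Fin k → V => A0 ∪ univ.image x = A), F (fun i => σ (x i)) =
      ∑ x ∈ univ.filter (fun x : Fin k → V => A0 ∪ univ.image x = A), F x := by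
  rw [mem_aut] at hσ
  have hA0 : A0.image σ = A0 := by
    ext b
    rw [Finset.mem_image]
    constructor
    · rintro ⟨a, ha, rfl⟩
      rw [hσ.2.1 a ha]
      exact ha
    · intro hb
      exact ⟨b, hb, hσ.2.1 b hb⟩
  have hAA := image_eq hσ.1
  refine Finset.sum_equiv (Equiv.arrowCongr (Equiv.refl (Fin k)) σ) (fun x => ?_)
    (fun x _ => rfl)
  rw [Finset.mem_filter, Finset.mem_filter]
  have h1 : A0 ∪ univ.image (Equiv.arrowCongr (Equiv.refl (Fin k)) σ x) =
      (A0 ∪ univ.image x).image σ := by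
    rw [Finset.image_union, hA0, Finset.image_image]
    rfl
  rw [h1]
  constructor
  · rintro ⟨-, h⟩
    refine ⟨Finset.mem_univ _, ?_⟩
    rw [h, hAA]
  · rintro ⟨-, h⟩
    refine ⟨Finset.mem_univ _, ?_⟩
    apply Finset.image_injective σ.injective
    rw [h, hAA]

end AUT_

open AUT_ in
theorem p_AUT (hT : T_TRE) : T_AUT := by
  intro V _ G A0 A k hA
  have h1 : ∑ x ∈ univ.filter (fun x : Fin k → V => A0 ∪ univ.image x = A),
      ∑ σ ∈ Aut0 G A0 A, ww G A0 (fun i => σ (x i)) ≤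
      ∑ _x ∈ univ.filter (fun x : Fin k → V => A0 ∪ univ.image x = A), (1 : ℝ) := by
    refine Finset.sum_le_sum fun x hx => ?_
    rw [Finset.mem_filter] at hx
    exact sum_aut hT hA hx.2
  rw [Finset.sum_comm] at h1
  have h2 : ∑ σ ∈ Aut0 G A0 A, ∑ x ∈ univ.filter
      (fun x : Fin k → V => A0 ∪ univ.image x = A), ww G A0 (fun i => σ (x i)) =
      ∑ _σ ∈ Aut0 G A0 A, ∑ x ∈ univ.filter
      (fun x : Fin k → V => A0 ∪ univ.image x = A), ww G A0 x :=
    Finset.sum_congr rfl fun σ hσ => sum_move k hσ (fun y => ww G A0 y)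
  rw [h2, Finset.sum_const, Finset.sum_const, nsmul_eq_mul, nsmul_eq_mul, mul_one] at h1
  exact h1

end Pool.Agent.RNB
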