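import Pool.Agent.RNB.Targets

set_option autoImplicit false

open Finset Classical

namespace Pool.Agent.RNB

open Pool.Agent.Lib.Recon

namespace KEY_

variable {V : Type} [Fintype V]

lemma mem_cl {G : SimpleGraph V} {B : Finset V} {v y : V} :
    y ∈ cl G B v ↔ y ∉ B ∧ ∀ b ∈ B, (G.Adj b v ↔ G.Adj b y) := by
  simp [cl]

lemma mem_SS {G : SimpleGraph V} {A : Finset V} {z v : V} :
    v ∈ SS G A z ↔ v ∉ A ∧ v ≠ z ∧ 2 * (cl G (insert z A) v).card ≤ (cl G A v).card := by
  simp [SS]

lemma mem_ZZ {G : SimpleGraph V} {A : Finset V} {z v : V} :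
    z ∈ ZZ G A v ↔ z ∉ A ∧ v ∈ SS G A z := by
  simp [ZZ]

lemma cl_eq {G : SimpleGraph V} {B : Finset V} {v y : V} (h : y ∈ cl G B v) :
    cl G B y = cl G B v := by
  rw [mem_cl] at h
  ext x
  rw [mem_cl, mem_cl]
  constructor
  · rintro ⟨h1, h2⟩
    exact ⟨h1, fun b hb => (h.2 b hb).trans (h2 b hb)⟩
  · rintro ⟨h1, h2⟩
    exact ⟨h1, fun b hb => (h.2 b hb).symm.trans (h2 b hb)⟩

lemma cl_mono {G : SimpleGraph V} {B B' : Finset V} (hB : B ⊆ B') (v : V) :
    cl G B' v ⊆ cl G B v := by
  intro x hx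
  rw [mem_cl] at hx ⊢
  exact ⟨fun h => hx.1 (hB h), fun b hb => hx.2 b (hB hb)⟩

end KEY_

open KEY_ in
theorem p_KEY : T_KEY := by
  intro V _ G A v hv
  refine ⟨?_, ?_⟩
  · intro y z hy hvy hz
    have hy' := mem_cl.mp hy
    rw [mem_dset] at hz
    have hzA : z ∉ A := by
      intro h
      have := hy'.2 z h
      have h1 := G.adj_comm z v
      have h2 := G.adj_comm z y
      tauto
    refine ⟨hzA, ?_⟩
    have hdisj : Disjoint (cl G (insert z A) v) (cl G (insert z A) y) := by
      rw [Finset.disjoint_left]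
      intro x hx hx'
      rw [mem_cl] at hx hx'
      have e1 := hx.2 z (Finset.mem_insert_self _ _)
      have e2 := hx'.2 z (Finset.mem_insert_self _ _)
      have h1 := G.adj_comm z v
      have h2 := G.adj_comm z y
      tauto
    have hsub1 : cl G (insert z A) v ⊆ cl G A v := cl_mono (Finset.subset_insert _ _) v
    have hsub2 : cl G (insert z A) y ⊆ cl G A v := by
      rw [← cl_eq hy]
      exact cl_mono (Finset.subset_insert _ _) y
    have hcard : (cl G (insert z A) v).card + (cl G (insert z A) y).card ≤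
        (cl G A v).card := by
      rw [← Finset.card_union_of_disjoint hdisj]
      exact Finset.card_le_card (Finset.union_subset hsub1 hsub2)
    have hc2 : (cl G A y).card = (cl G A v).card := by rw [cl_eq hy]
    rcases le_total (cl G (insert z A) v).card (cl G (insert z A) y).card with h | h
    · left
      rw [mem_ZZ, mem_SS]
      refine ⟨hzA, hv, ?_, by omega⟩
      tauto
    · right
      rw [mem_ZZ, mem_SS]
      refine ⟨hzA, hy'.1, ?_, by omega⟩
      tauto
  · intro z hz y hy
    have h1 := cl_eq hy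
    have h2 := cl_eq (cl_mono (Finset.subset_insert z A) v hy)
    have hy' := mem_cl.mp hy
    rw [mem_SS] at hz ⊢
    refine ⟨fun h => hy'.1 (Finset.mem_insert_of_mem h), ?_, ?_⟩
    · rintro rfl
      exact hy'.1 (Finset.mem_insert_self _ _)
    · rw [h1, h2]
      exact hz.2.2

end Pool.Agent.RNB
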