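import Pool.Agent.RNB.Targets

/-! # RNB: counting induced embeddings -/

set_option autoImplicit false

open Finset Classical

namespace Pool.Agent.RNB

open Pool.Agent.Lib.Recon

namespace EMB_

variable {V : Type} [Fintype V]

/-- the transition map `γ0⁻¹ ∘ γ` -/
noncomputable def tr (A : Finset V) (γ0 γ : A → V) : A → A :=
  fun a => if h : ∃ a' : A, γ0 a' = γ a then h.choose else a

theorem tr_spec {A : Finset V} {γ0 γ : A → V} (h : univ.image γ = univ.image γ0) (a : A) :
    γ0 (tr A γ0 γ a) = γ a := by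
  have hex : ∃ a' : A, γ0 a' = γ a := by
    have h1 : γ a ∈ univ.image γ0 := by
      rw [← h]
      exact mem_image_of_mem _ (mem_univ a)
    obtain ⟨a', _, ha'⟩ := mem_image.mp h1
    exact ⟨a', ha'⟩
  unfold tr
  rw [dif_pos hex]
  exact hex.choose_spec

theorem tr_inj {A : Finset V} {γ0 γ : A → V} (h : univ.image γ = univ.image γ0)
    (hγ : Function.Injective γ) : Function.Injective (tr A γ0 γ) := by
  intro a b hab
  apply hγ
  rw [← tr_spec h a, ← tr_spec h b, hab]

/-- the permutation of `A` -/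
noncomputable def pm (A : Finset V) (γ0 γ : A → V) : Equiv.Perm A :=
  if h : Function.Bijective (tr A γ0 γ) then Equiv.ofBijective _ h else Equiv.refl A

theorem pm_apply {A : Finset V} {γ0 γ : A → V} (h : univ.image γ = univ.image γ0)
    (hγ : Function.Injective γ) (a : A) : pm A γ0 γ a = tr A γ0 γ a := by
  have hb : Function.Bijective (tr A γ0 γ) := Finite.injective_iff_bijective.mp (tr_inj h hγ)
  unfold pm
  rw [dif_pos hb]
  rfl

theorem fibre {A0 A : Finset V} (G : SimpleGraph V) (hA : A0 ⊆ A) (γ0 : A → V)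
    (h0 : IsEmb G A G γ0) :
    ((Embs G A G).filter (fun γ : A → V => univ.image γ = univ.image γ0 ∧
      ∀ a : A, (a : V) ∈ A0 → γ a = γ0 a)).card ≤ (Aut0 G A0 A).card := by
  apply Finset.card_le_card_of_injOn (fun γ => Equiv.Perm.ofSubtype (pm A γ0 γ))
  · intro γ hγ
    have hγ' := Finset.mem_coe.mp hγ
    rw [mem_filter] at hγ'
    obtain ⟨hE, him, hres⟩ := hγ'
    have hE' : IsEmb G A G γ := by
      simp only [Embs, mem_filter, mem_univ, true_and] at hE
      exact hE
    have key : ∀ a : A, Equiv.Perm.ofSubtype (pm A γ0 γ) (a : V) = (tr A γ0 γ a : V) := by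
      intro a
      rw [Equiv.Perm.ofSubtype_apply_coe, pm_apply him hE'.1]
    simp only [Aut0, coe_filter, mem_univ, true_and, Set.mem_ofPred_eq]
    refine ⟨?_, ?_, ?_⟩
    · intro v hv
      exact Equiv.Perm.ofSubtype_apply_of_not_mem _ hv
    · intro v hv
      rw [key ⟨v, hA hv⟩]
      have h1 : tr A γ0 γ ⟨v, hA hv⟩ = ⟨v, hA hv⟩ := by
        apply h0.1
        rw [tr_spec him]
        exact hres ⟨v, hA hv⟩ hv
      rw [h1]
    · intro a ha b hb
      rw [key ⟨a, ha⟩, key ⟨b, hb⟩]
      rw [h0.2 (tr A γ0 γ ⟨a, ha⟩) (tr A γ0 γ ⟨b, hb⟩), tr_spec him, tr_spec him]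
      exact hE'.2 ⟨a, ha⟩ ⟨b, hb⟩
  · intro γ hγ γ' hγ' heq
    have hγ1 := Finset.mem_coe.mp hγ
    have hγ2 := Finset.mem_coe.mp hγ'
    rw [mem_filter] at hγ1 hγ2
    have hE1 : IsEmb G A G γ := by
      have := hγ1.1
      simp only [Embs, mem_filter, mem_univ, true_and] at this
      exact this
    have hE2 : IsEmb G A G γ' := by
      have := hγ2.1
      simp only [Embs, mem_filter, mem_univ, true_and] at this
      exact this
    funext a
    have h1 : Equiv.Perm.ofSubtype (pm A γ0 γ) (a : V) =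
        Equiv.Perm.ofSubtype (pm A γ0 γ') (a : V) := by
      have heq' : Equiv.Perm.ofSubtype (pm A γ0 γ) = Equiv.Perm.ofSubtype (pm A γ0 γ') := heq
      rw [heq']
    rw [Equiv.Perm.ofSubtype_apply_coe, Equiv.Perm.ofSubtype_apply_coe,
      pm_apply hγ1.2.1 hE1.1, pm_apply hγ2.2.1 hE2.1] at h1
    rw [← tr_spec hγ1.2.1 a, ← tr_spec hγ2.2.1 a, Subtype.ext h1]

end EMB_

theorem p_EMB : T_EMB := by
  intro V _ G A0 A hA
  set Φ : (A → V) → Finset V × (A0 → V) :=
    fun γ => (univ.image γ, fun a => γ ⟨a, hA a.2⟩) with hΦ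
  have h1 : (Embs G A G).card ≤ (Aut0 G A0 A).card * ((Embs G A G).image Φ).card := by
    apply Finset.card_le_mul_card_image
    intro b hb
    obtain ⟨γ0, hγ0, rfl⟩ := mem_image.mp hb
    have h0 : IsEmb G A G γ0 := by
      simp only [Embs, mem_filter, mem_univ, true_and] at hγ0
      exact hγ0
    refine le_trans (Finset.card_le_card ?_) (EMB_.fibre G hA γ0 h0)
    intro γ hγ
    rw [mem_filter] at hγ ⊢
    refine ⟨hγ.1, ?_, ?_⟩
    · exact congrArg Prod.fst hγ.2
    · intro a ha
      exact congrFun (congrArg Prod.snd hγ.2) ⟨a, ha⟩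
  have h2 : ((Embs G A G).image Φ).card ≤
      (Fintype.card V).choose A.card * Fintype.card V ^ A0.card := by
    have h3 : (Embs G A G).image Φ ⊆ (powersetCard A.card (univ : Finset V)) ×ˢ univ := by
      intro b hb
      obtain ⟨γ, hγ, rfl⟩ := mem_image.mp hb
      simp only [Embs, mem_filter, mem_univ, true_and] at hγ
      rw [mem_product]
      refine ⟨?_, mem_univ _⟩
      rw [mem_powersetCard]
      refine ⟨subset_univ _, ?_⟩
      rw [card_image_of_injective _ hγ.1, card_univ, Fintype.card_coe]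
    refine le_trans (card_le_card h3) ?_
    rw [card_product, card_powersetCard, card_univ, card_univ, Fintype.card_fun,
      Fintype.card_coe]
  calc (Embs G A G).card ≤ (Aut0 G A0 A).card * ((Embs G A G).image Φ).card := h1
    _ ≤ (Aut0 G A0 A).card * ((Fintype.card V).choose A.card * Fintype.card V ^ A0.card) :=
        Nat.mul_le_mul_left _ h2
    _ = _ := by ring

end Pool.Agent.RNB
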