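import Pool.Agent.RNB.Targets

set_option autoImplicit false

/-! # RNB: BIN -/

open Finset Classical

namespace Pool.Agent.RNB

open Pool.Agent.Lib.Recon

theorem p_BIN : T_BIN := by
  intro n a h
  have ha : a ≤ n := by omega
  have h1 : (n.choose a : ℝ) * (1 / 31) ^ a ≤ (32 / 31) ^ n := by
    have e : (32 / 31 : ℝ) ^ n = (1 / 31 + 1) ^ n := by norm_num
    rw [e, add_pow]
    have h2 := Finset.single_le_sum
      (f := fun m => (1 / 31 : ℝ) ^ m * 1 ^ (n - m) * (n.choose m : ℝ))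
      (fun m _ => by positivity) (Finset.mem_range.2 (Nat.lt_succ_of_le ha))
    simp only [one_pow, mul_one] at h2 ⊢
    calc (n.choose a : ℝ) * (1 / 31) ^ a = (1 / 31) ^ a * (n.choose a : ℝ) := mul_comm _ _
      _ ≤ _ := h2
  have h3 : (n.choose a : ℝ) ≤ (32 / 31) ^ n * 31 ^ a := by
    have h4 : (n.choose a : ℝ) = (n.choose a : ℝ) * (1 / 31) ^ a * 31 ^ a := by
      rw [mul_assoc, ← mul_pow]
      norm_num
    rw [h4]
    gcongr
  have hx : (a : ℝ) ≤ (n : ℝ) / 32 := by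
    rw [le_div_iff₀ (by norm_num)]
    have : ((32 * a : ℕ) : ℝ) ≤ n := by exact_mod_cast h
    push_cast at this
    linarith
  have h5 : (31 : ℝ) ^ a ≤ 31 ^ ((n : ℝ) / 32) := by
    rw [← Real.rpow_natCast]
    exact Real.rpow_le_rpow_of_exponent_le (by norm_num) hx
  have h6 : (32 / 31 : ℝ) ^ n = ((32 / 31 : ℝ) ^ (32 : ℕ)) ^ ((n : ℝ) / 32) := by
    rw [← Real.rpow_natCast, ← Real.rpow_natCast, ← Real.rpow_mul (by norm_num)]
    congr 1
    push_cast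
    ring
  have h7 : ((32 / 31 : ℝ) ^ (32 : ℕ)) * 31 ≤ (2 : ℝ) ^ (13 / 2 : ℝ) := by
    refine (pow_le_pow_iff_left₀ (by positivity) (by positivity) two_ne_zero).1 ?_
    rw [← Real.rpow_natCast ((2 : ℝ) ^ (13 / 2 : ℝ)), ← Real.rpow_mul (by norm_num),
      show (13 / 2 : ℝ) * ((2 : ℕ) : ℝ) = ((13 : ℕ) : ℝ) by norm_num, Real.rpow_natCast]
    norm_num
  calc (n.choose a : ℝ) ≤ (32 / 31) ^ n * 31 ^ a := h3
    _ ≤ ((32 / 31 : ℝ) ^ (32 : ℕ)) ^ ((n : ℝ) / 32) * 31 ^ ((n : ℝ) / 32) := by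
        rw [h6]
        gcongr
    _ = (((32 / 31 : ℝ) ^ (32 : ℕ)) * 31) ^ ((n : ℝ) / 32) := by
        rw [Real.mul_rpow (by positivity) (by norm_num)]
    _ ≤ ((2 : ℝ) ^ (13 / 2 : ℝ)) ^ ((n : ℝ) / 32) :=
        Real.rpow_le_rpow (by positivity) h7 (by positivity)
    _ = (2 : ℝ) ^ ((13 / 64 : ℝ) * n) := by
        rw [← Real.rpow_mul (by norm_num)]
        congr 1
        ring

end Pool.Agent.RNB
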