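import Mathlib
import Pool.Agent.Lib.Recon.LocalFinal

/-!
# RNB: every deck has at most `n ^ (C log n)` reconstructions (MP_552896_co): definitions

Project RNB (owner helper48). Main theorem: a graph on `n ≥ 3` vertices in which any two vertices
are distinguished by at least `1000 log₂ n` others is reconstructible.
-/

set_option autoImplicit false

open Finset Classical

namespace Pool.Agent.RNB

open Pool.Agent.Lib.Recon

variable {V : Type} [Fintype V]

/-- the vertices outside `B` with the same neighbours in `B` as `v` -/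
noncomputable def cl (G : SimpleGraph V) (B : Finset V) (v : V) : Finset V :=
  univ.filter (fun y => y ∉ B ∧ ∀ b ∈ B, (G.Adj b v ↔ G.Adj b y))

/-- the number of candidates for `v` over `B` -/
noncomputable def cz (G : SimpleGraph V) (B : Finset V) (v : V) : ℕ :=
  if v ∈ B then 1 else (cl G B v).card

/-- the vertices whose class over `A` is halved (at least) by `z` -/
noncomputable def SS (G : SimpleGraph V) (A : Finset V) (z : V) : Finset V :=
  univ.filter (fun v => v ∉ A ∧ v ≠ z ∧ 2 * (cl G (insert z A) v).card ≤ (cl G A v).card)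

/-- the vertices which halve the class of `v` -/
noncomputable def ZZ (G : SimpleGraph V) (A : Finset V) (v : V) : Finset V :=
  univ.filter (fun z => z ∉ A ∧ v ∈ SS G A z)

/-- `A` and the first `i` entries of the sequence `x` -/
noncomputable def Bi {k : ℕ} (A : Finset V) (x : Fin k → V) (i : ℕ) : Finset V :=
  A ∪ (univ.filter (fun j : Fin k => (j : ℕ) < i)).image x

/-- weight of a sequence -/
noncomputable def ww {k : ℕ} (G : SimpleGraph V) (A : Finset V) (x : Fin k → V) : ℝ :=
  ∏ i : Fin k, ((cz G (Bi A x i) (x i) : ℝ))⁻¹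

/-- minus the logarithm of the weight of a sequence -/
noncomputable def WW {k : ℕ} (G : SimpleGraph V) (A : Finset V) (x : Fin k → V) : ℝ :=
  ∑ i : Fin k, Real.logb 2 (cz G (Bi A x i) (x i))

/-- the automorphisms of `G[A]` which fix every vertex of `A0` -/
noncomputable def Aut0 (G : SimpleGraph V) (A0 A : Finset V) : Finset (Equiv.Perm V) :=
  univ.filter (fun σ => (∀ v, v ∉ A → σ v = v) ∧ (∀ v ∈ A0, σ v = v) ∧
    ∀ a ∈ A, ∀ b ∈ A, (G.Adj a b ↔ G.Adj (σ a) (σ b)))

/-- the sequences `x` and `y` have the same induced graph over `A` -/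
def Sim {k : ℕ} (G : SimpleGraph V) (A : Finset V) (x y : Fin k → V) : Prop :=
  (∀ i j, x i = x j ↔ y i = y j) ∧ (∀ i, ∀ a ∈ A, (x i = a ↔ y i = a)) ∧
    (∀ i j, G.Adj (x i) (x j) ↔ G.Adj (y i) (y j)) ∧
    ∀ i, ∀ a ∈ A, (G.Adj a (x i) ↔ G.Adj a (y i))

end Pool.Agent.RNB
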