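import Pool.Agent.RNB.Targets

/-!
# RNB: target AVO
-/

set_option autoImplicit false

open Finset Classical

namespace Pool.Agent.RNB

open Pool.Agent.Lib.Recon

theorem AVO_card (V : Type) [Fintype V] (k : ℕ) (J : Finset (Fin k)) (Z : Finset V) :
    (univ.filter (fun x : Fin k → V => ∀ j ∈ J, x j ∉ Z)).card =
      ∏ j : Fin k, (if j ∈ J then Fintype.card V - Z.card else Fintype.card V) := by
  have h : univ.filter (fun x : Fin k → V => ∀ j ∈ J, x j ∉ Z) =
      Fintype.piFinset (fun j : Fin k => if j ∈ J then Zᶜ else (univ : Finset V)) := by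
    ext x
    simp only [mem_filter, mem_univ, true_and, Fintype.mem_piFinset]
    constructor
    · intro hx j
      by_cases hj : j ∈ J
      · simp [hj, hx j hj]
      · simp [hj]
    · intro hx j hj
      have := hx j
      simpa [hj] using this
  rw [h, Fintype.card_piFinset]
  apply Finset.prod_congr rfl
  intro j _
  by_cases hj : j ∈ J
  · simp [hj, Finset.card_compl]
  · simp [hj]

theorem p_AVO : T_AVO := by
  intro V _ k J Z t _ht htZ
  rw [AVO_card]
  have hZ : Z.card ≤ Fintype.card V := Finset.card_le_univ Z
  push_cast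
  have key : ((Fintype.card V - Z.card : ℕ) : ℝ) ≤ (1 - t / Fintype.card V) * Fintype.card V := by
    rcases Nat.eq_zero_or_pos (Fintype.card V) with h0 | h0
    · simp [h0]
    · have hn : (0 : ℝ) < Fintype.card V := by exact_mod_cast h0
      have e : (1 - t / Fintype.card V) * (Fintype.card V : ℝ) = Fintype.card V - t := by
        field_simp
      rw [e, Nat.cast_sub hZ]
      linarith
  have step : (∏ j : Fin k, (if j ∈ J then ((Fintype.card V - Z.card : ℕ) : ℝ)
      else (Fintype.card V : ℝ))) ≤
      ∏ j : Fin k, ((if j ∈ J then (1 - t / (Fintype.card V : ℝ)) else 1) *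
        (Fintype.card V : ℝ)) := by
    apply Finset.prod_le_prod
    · intro j _
      by_cases hj : j ∈ J
      · rw [if_pos hj]; positivity
      · rw [if_neg hj]; positivity
    · intro j _
      by_cases hj : j ∈ J
      · rw [if_pos hj, if_pos hj]; exact key
      · rw [if_neg hj, if_neg hj, one_mul]
  have fin : (∏ j : Fin k, ((if j ∈ J then (1 - t / (Fintype.card V : ℝ)) else 1) *
        (Fintype.card V : ℝ))) =
      (1 - t / Fintype.card V) ^ J.card * (Fintype.card V : ℝ) ^ k := by
    rw [Finset.prod_mul_distrib, Finset.prod_ite_mem]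
    simp
  have cast_eq : (∏ j : Fin k, (((if j ∈ J then Fintype.card V - Z.card
      else Fintype.card V : ℕ)) : ℝ)) =
      ∏ j : Fin k, (if j ∈ J then ((Fintype.card V - Z.card : ℕ) : ℝ)
      else (Fintype.card V : ℝ)) := by
    apply Finset.prod_congr rfl
    intro j _
    by_cases hj : j ∈ J
    · simp [hj]
    · simp [hj]
  calc _ = ∏ j : Fin k, (if j ∈ J then ((Fintype.card V - Z.card : ℕ) : ℝ)
      else (Fintype.card V : ℝ)) := by
        rw [← cast_eq]
    _ ≤ _ := step
    _ = _ := fin

end Pool.Agent.RNB
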