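import Pool.Agent.RNB.Targets

set_option autoImplicit false

open Finset Classical

namespace Pool.Agent.RNB

open Pool.Agent.Lib.Recon

namespace CHO_

variable {V : Type} [Fintype V]

lemma one_le_cz (G : SimpleGraph V) (B : Finset V) (v : V) : 1 ≤ cz G B v := by
  unfold cz
  split_ifs with h
  · exact le_refl 1
  · refine Finset.card_pos.mpr ⟨v, ?_⟩
    unfold cl
    rw [Finset.mem_filter]
    exact ⟨Finset.mem_univ _, h, fun b _ => Iff.rfl⟩

lemma logb_cz_nonneg (G : SimpleGraph V) (B : Finset V) (v : V) :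
    0 ≤ Real.logb 2 (cz G B v) := by
  refine Real.logb_nonneg (by norm_num) ?_
  exact_mod_cast one_le_cz G B v

lemma WW_nonneg {k : ℕ} (G : SimpleGraph V) (A : Finset V) (x : Fin k → V) : 0 ≤ WW G A x := by
  unfold WW
  exact Finset.sum_nonneg fun i _ => logb_cz_nonneg G _ _

lemma ww_eq {k : ℕ} (G : SimpleGraph V) (A : Finset V) (x : Fin k → V) :
    ww G A x = (2 : ℝ) ^ (-(WW G A x)) := by
  unfold ww WW
  rw [← Finset.sum_neg_distrib, Real.rpow_sum_of_pos (by norm_num : (0 : ℝ) < 2)]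
  refine Finset.prod_congr rfl fun i _ => ?_
  have hc : (0 : ℝ) < (cz G (Bi A x i) (x i) : ℝ) := by
    exact_mod_cast one_le_cz G (Bi A x i) (x i)
  rw [Real.rpow_neg (by norm_num : (0 : ℝ) ≤ 2),
    Real.rpow_logb (by norm_num) (by norm_num) hc]

lemma ww_nonneg {k : ℕ} (G : SimpleGraph V) (A : Finset V) (x : Fin k → V) : 0 ≤ ww G A x := by
  rw [ww_eq]
  positivity

/-- Markov -/
lemma markov {k : ℕ} (G : SimpleGraph V) (A : Finset V) (M : ℝ) (hM : 0 ≤ M)
    (hs : ∑ x : Fin k → V, WW G A x ≤ (Fintype.card V : ℝ) ^ k * M) :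
    ((univ.filter (fun x : Fin k → V => 4 * M < WW G A x)).card : ℝ) ≤
      (Fintype.card V : ℝ) ^ k / 4 := by
  set b2 := univ.filter (fun x : Fin k → V => 4 * M < WW G A x) with hb2
  have hN : (0 : ℝ) ≤ (Fintype.card V : ℝ) ^ k := by positivity
  rcases hM.eq_or_lt with h0 | h0
  · have hall : ∀ x : Fin k → V, WW G A x = 0 := by
      intro x
      have h1 : WW G A x ≤ ∑ y : Fin k → V, WW G A y :=
        Finset.single_le_sum (f := fun y => WW G A y) (fun y _ => WW_nonneg G A y)
          (Finset.mem_univ x)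
      have h2 := WW_nonneg G A x
      rw [← h0, mul_zero] at hs
      linarith
    have hemp : b2 = ∅ := by
      rw [hb2, Finset.filter_eq_empty_iff]
      intro x _ hx
      rw [hall x, ← h0] at hx
      norm_num at hx
    rw [hemp]
    simp only [Finset.card_empty, Nat.cast_zero]
    positivity
  · have h1 : (b2.card : ℝ) * (4 * M) ≤ ∑ x ∈ b2, WW G A x := by
      rw [← nsmul_eq_mul]
      refine Finset.card_nsmul_le_sum b2 _ _ fun x hx => ?_
      exact ((Finset.mem_filter.mp hx).2).le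
    have h2 : ∑ x ∈ b2, WW G A x ≤ ∑ x, WW G A x :=
      Finset.sum_le_sum_of_subset_of_nonneg (Finset.subset_univ _)
        fun x _ _ => WW_nonneg G A x
    have h3 : (b2.card : ℝ) * (4 * M) ≤ (Fintype.card V : ℝ) ^ k * M := by linarith
    have h4 : ((b2.card : ℝ) * 4) * M ≤ (Fintype.card V : ℝ) ^ k * M := by linarith
    have h5 := le_of_mul_le_mul_right h4 h0
    linarith

end CHO_

open CHO_

theorem p_CHO (hA : T_AUT) : T_CHO := by
  intro V _ G A0 k M hn hM hs hbad
  set N : ℝ := (Fintype.card V : ℝ) ^ k with hN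
  have hNpos : 0 < N := by
    have : (0 : ℝ) < (Fintype.card V : ℝ) := by exact_mod_cast hn
    positivity
  set b2 := univ.filter (fun x : Fin k → V => 4 * M < WW G A0 x) with hb2
  have hb2c : (b2.card : ℝ) ≤ N / 4 := markov G A0 M hM hs
  set bd : Finset V → Prop := fun A => ∃ u v, u ≠ v ∧ ∀ a ∈ A, a ∉ dset G u v with hbd
  set f : (Fin k → V) → Finset V := fun x => A0 ∪ univ.image x with hf
  set X : Finset V → Finset (Fin k → V) :=
    fun A => univ.filter (fun x : Fin k → V => A0 ∪ univ.image x = A) with hX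
  set T : Finset (Finset V) := univ.filter (fun A => ¬ bd A) with hT
  set s : Finset (Fin k → V) := univ.filter (fun x => ¬ bd (f x)) with hs'
  have hcs : (7 / 8 : ℝ) * N ≤ (s.card : ℝ) := by
    have h1 : (univ.filter (fun x : Fin k → V => bd (f x))).card + s.card =
        (univ : Finset (Fin k → V)).card :=
      Finset.card_filter_add_card_filter_not (s := (univ : Finset (Fin k → V)))
        (fun x => bd (f x))
    have h2 : (univ.filter (fun x : Fin k → V => bd (f x))).card ≤
        (univ.filter (fun x : Fin k → V => ∃ u v, u ≠ v ∧ ∀ j, x j ∉ dset G u v)).card := by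
      refine Finset.card_le_card ?_
      intro x hx
      rw [Finset.mem_filter] at hx ⊢
      obtain ⟨u, v, huv, h⟩ := hx.2
      refine ⟨Finset.mem_univ _, u, v, huv, fun j => h _ ?_⟩
      exact Finset.mem_union_right _ (Finset.mem_image_of_mem x (Finset.mem_univ j))
    have h3 : ((univ : Finset (Fin k → V)).card : ℝ) = N := by
      rw [Finset.card_univ, Fintype.card_fun, Fintype.card_fin, Nat.cast_pow]
    have h4 : ((univ.filter (fun x : Fin k → V => bd (f x))).card : ℝ) ≤ N / 8 :=
      le_trans (by exact_mod_cast h2) hbad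
    have h5 : ((univ.filter (fun x : Fin k → V => bd (f x))).card : ℝ) + (s.card : ℝ) = N := by
      rw [← h3]
      exact_mod_cast h1
    linarith
  -- choose A
  have hex : ∃ A ∈ T, (X A).Nonempty ∧ 2 * (X A ∩ b2).card ≤ (X A).card := by
    by_contra hcon
    push Not at hcon
    have hle : ∀ A ∈ T, (X A).card ≤ 2 * (X A ∩ b2).card := by
      intro A hAT
      rcases Finset.eq_empty_or_nonempty (X A) with he | hne
      · rw [he]
        simp
      · exact (hcon A hAT hne).le
    have hfs : ∀ x ∈ s, f x ∈ T := by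
      intro x hx
      rw [hT, Finset.mem_filter]
      exact ⟨Finset.mem_univ _, (Finset.mem_filter.mp hx).2⟩
    have hc1 : s.card = ∑ A ∈ T, (s.filter (fun x => f x = A)).card :=
      Finset.card_eq_sum_card_fiberwise hfs
    have hfs2 : ∀ x ∈ s ∩ b2, f x ∈ T := fun x hx => hfs x (Finset.mem_inter.mp hx).1
    have hc2 : (s ∩ b2).card = ∑ A ∈ T, ((s ∩ b2).filter (fun x => f x = A)).card :=
      Finset.card_eq_sum_card_fiberwise hfs2
    have e1 : ∀ A ∈ T, s.filter (fun x => f x = A) = X A := by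
      intro A hAT
      ext x
      simp only [hs', hX, hf, Finset.mem_filter, Finset.mem_univ, true_and]
      constructor
      · exact fun h => h.2
      · intro h
        refine ⟨?_, h⟩
        rw [h]
        exact (Finset.mem_filter.mp hAT).2
    have e2 : ∀ A ∈ T, (s ∩ b2).filter (fun x => f x = A) = X A ∩ b2 := by
      intro A hAT
      rw [← e1 A hAT]
      ext x
      simp only [Finset.mem_filter, Finset.mem_inter]
      tauto
    have h1 : s.card ≤ 2 * (s ∩ b2).card := by
      rw [hc1, hc2, Finset.mul_sum]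
      refine Finset.sum_le_sum fun A hAT => ?_
      rw [e1 A hAT, e2 A hAT]
      exact hle A hAT
    have h2 : (s ∩ b2).card ≤ b2.card := Finset.card_le_card Finset.inter_subset_right
    have h3 : (s.card : ℝ) ≤ 2 * (b2.card : ℝ) := by
      exact_mod_cast h1.trans (Nat.mul_le_mul_left 2 h2)
    linarith
  obtain ⟨A, hAT, hne, hA2⟩ := hex
  have hnb : ¬ bd A := (Finset.mem_filter.mp hAT).2
  obtain ⟨x0, hx0⟩ := hne
  have hx0' : A0 ∪ univ.image x0 = A := (Finset.mem_filter.mp hx0).2
  have hA0A : A0 ⊆ A := by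
    rw [← hx0']
    exact Finset.subset_union_left
  refine ⟨A, hA0A, ?_, ?_, ?_⟩
  · rw [← hx0']
    refine (Finset.card_union_le _ _).trans ?_
    refine Nat.add_le_add_left ?_ _
    refine Finset.card_image_le.trans ?_
    rw [Finset.card_univ, Fintype.card_fin]
  · intro u v hu hv huv
    by_contra hcon
    push Not at hcon
    apply hnb
    refine ⟨u, v, huv, fun a ha had => ?_⟩
    exact (mem_dset.mp had).2.2 (hcon a ha)
  · have haut := hA V G A0 A k hA0A
    have hXpos : (0 : ℝ) < ((X A).card : ℝ) := by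
      exact_mod_cast Finset.card_pos.mpr ⟨x0, hx0⟩
    have hsd : ((X A).card : ℝ) / 2 ≤ ((X A \ b2).card : ℝ) := by
      have h1 : (X A \ b2).card + (X A ∩ b2).card = (X A).card :=
        Finset.card_sdiff_add_card_inter _ _
      have h1' : ((X A \ b2).card : ℝ) + ((X A ∩ b2).card : ℝ) = ((X A).card : ℝ) := by
        exact_mod_cast h1
      have h2' : 2 * ((X A ∩ b2).card : ℝ) ≤ ((X A).card : ℝ) := by
        exact_mod_cast hA2
      linarith
    have hlow : ((X A \ b2).card : ℝ) * (2 : ℝ) ^ (-(4 * M)) ≤ ∑ x ∈ X A, ww G A0 x := by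
      have h1 : ((X A \ b2).card : ℝ) * (2 : ℝ) ^ (-(4 * M)) ≤ ∑ x ∈ X A \ b2, ww G A0 x := by
        rw [← nsmul_eq_mul]
        refine Finset.card_nsmul_le_sum _ _ _ fun x hx => ?_
        rw [ww_eq]
        refine Real.rpow_le_rpow_of_exponent_le (by norm_num) ?_
        have hxn := (Finset.mem_sdiff.mp hx).2
        rw [hb2, Finset.mem_filter, not_and] at hxn
        have := hxn (Finset.mem_univ _)
        linarith
      exact h1.trans (Finset.sum_le_sum_of_subset_of_nonneg Finset.sdiff_subset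
        fun x _ _ => ww_nonneg G A0 x)
    have hpw : (0 : ℝ) < (2 : ℝ) ^ (-(4 * M)) := by positivity
    have hpw2 : (2 : ℝ) ^ (-(4 * M)) * (2 : ℝ) ^ (4 * M) = 1 := by
      rw [← Real.rpow_add (by norm_num : (0 : ℝ) < 2)]
      simp
    have h5 : ((Aut0 G A0 A).card : ℝ) * (((X A).card : ℝ) / 2 * (2 : ℝ) ^ (-(4 * M))) ≤
        ((X A).card : ℝ) := by
      refine le_trans ?_ haut
      refine mul_le_mul_of_nonneg_left ?_ (Nat.cast_nonneg _)
      exact (mul_le_mul_of_nonneg_right hsd hpw.le).trans hlow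
    have h6 : (((Aut0 G A0 A).card : ℝ) * (2 : ℝ) ^ (-(4 * M)) / 2) * ((X A).card : ℝ) ≤
        1 * ((X A).card : ℝ) := by
      calc (((Aut0 G A0 A).card : ℝ) * (2 : ℝ) ^ (-(4 * M)) / 2) * ((X A).card : ℝ)
          = ((Aut0 G A0 A).card : ℝ) * (((X A).card : ℝ) / 2 * (2 : ℝ) ^ (-(4 * M))) := by ring
        _ ≤ _ := h5
        _ = _ := (one_mul _).symm
    have h7 := le_of_mul_le_mul_right h6 hXpos
    have hp : (0 : ℝ) < (2 : ℝ) ^ (4 * M) := by positivity
    calc ((Aut0 G A0 A).card : ℝ)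
        = 2 * ((((Aut0 G A0 A).card : ℝ) * (2 : ℝ) ^ (-(4 * M)) / 2) * (2 : ℝ) ^ (4 * M)) := by
          rw [show 2 * ((((Aut0 G A0 A).card : ℝ) * (2 : ℝ) ^ (-(4 * M)) / 2) *
            (2 : ℝ) ^ (4 * M)) = ((Aut0 G A0 A).card : ℝ) *
              ((2 : ℝ) ^ (-(4 * M)) * (2 : ℝ) ^ (4 * M)) by ring, hpw2, mul_one]
      _ ≤ 2 * (1 * (2 : ℝ) ^ (4 * M)) := by
          refine mul_le_mul_of_nonneg_left ?_ (by norm_num)
          exact mul_le_mul_of_nonneg_right h7 hp.le
      _ = 2 * (2 : ℝ) ^ (4 * M) := by ring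

end Pool.Agent.RNB
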