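import Pool.Agent.RNB.Targets

/-!
# RNB, CST: cost of a vertex at a given time
-/

set_option autoImplicit false

open Finset Classical

namespace Pool.Agent.RNB

open Pool.Agent.Lib.Recon

namespace CST_

variable {V : Type} [Fintype V]

lemma mem_cl {G : SimpleGraph V} {B : Finset V} {v y : V} :
    y ∈ cl G B v ↔ y ∉ B ∧ ∀ b ∈ B, (G.Adj b v ↔ G.Adj b y) := by
  simp [cl]

lemma cl_mono {G : SimpleGraph V} {B B' : Finset V} (h : B ⊆ B') (v : V) :
    cl G B' v ⊆ cl G B v := by
  intro y hy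
  rw [mem_cl] at hy ⊢
  exact ⟨fun hB => hy.1 (h hB), fun b hb => hy.2 b (h hb)⟩

lemma self_mem_cl {G : SimpleGraph V} {B : Finset V} {v : V} (hv : v ∉ B) : v ∈ cl G B v := by
  rw [mem_cl]
  exact ⟨hv, fun b _ => Iff.rfl⟩

lemma cz_pos (G : SimpleGraph V) (B : Finset V) (v : V) : 1 ≤ cz G B v := by
  unfold cz
  split_ifs with h
  · exact le_rfl
  · exact Finset.card_pos.2 ⟨v, self_mem_cl h⟩

lemma cz_le (G : SimpleGraph V) (B : Finset V) (v : V) : cz G B v ≤ Fintype.card V := by
  unfold cz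
  split_ifs with h
  · exact Fintype.card_pos_iff.2 ⟨v⟩
  · exact Finset.card_le_univ _

lemma cost_nonneg (G : SimpleGraph V) (B : Finset V) (v : V) :
    0 ≤ Real.logb 2 (cz G B v) := by
  refine Real.logb_nonneg (by norm_num) ?_
  exact_mod_cast cz_pos G B v

lemma cost_le (G : SimpleGraph V) (B : Finset V) (v : V) :
    Real.logb 2 (cz G B v) ≤ Real.logb 2 (Fintype.card V) := by
  refine Real.logb_le_logb_of_le (by norm_num) ?_ ?_
  · exact_mod_cast (cz_pos G B v)
  · exact_mod_cast cz_le G B v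

lemma logb_nat_le {c : ℕ} (hc : 1 ≤ c) : Real.logb 2 (c : ℝ) ≤ (c : ℝ) - 1 := by
  obtain ⟨m, rfl⟩ : ∃ m, c = m + 1 := ⟨c - 1, by omega⟩
  have h1 : ((m + 1 : ℕ) : ℝ) ≤ (2 : ℝ) ^ m := by
    have h2 : m + 1 ≤ 2 ^ m := Nat.succ_le_of_lt Nat.lt_two_pow_self
    exact_mod_cast h2
  have h3 : Real.logb 2 ((m + 1 : ℕ) : ℝ) ≤ Real.logb 2 ((2 : ℝ) ^ m) := by
    refine Real.logb_le_logb_of_le (by norm_num) ?_ h1
    exact_mod_cast Nat.succ_pos m
  rw [Real.logb_pow, Real.logb_self_eq_one (by norm_num), mul_one] at h3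
  push_cast at h3 ⊢
  linarith

omit [Fintype V] in
lemma mem_Bi {k : ℕ} {A : Finset V} {x : Fin k → V} {i : ℕ} {w : V} :
    w ∈ Bi A x i ↔ w ∈ A ∨ ∃ j : Fin k, (j : ℕ) < i ∧ x j = w := by
  simp [Bi]

lemma Bi_mono {k : ℕ} (A : Finset V) (x : Fin k → V) {i i' : ℕ} (h : i ≤ i') :
    Bi A x i ⊆ Bi A x i' := by
  intro w hw
  rw [mem_Bi] at hw ⊢
  rcases hw with hw | ⟨j, hj, hw⟩
  · exact Or.inl hw
  · exact Or.inr ⟨j, hj.trans_le h, hw⟩

lemma Bi_congr {k : ℕ} (A : Finset V) {x y : Fin k → V} {i : ℕ}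
    (h : ∀ j : Fin k, (j : ℕ) < i → x j = y j) : Bi A x i = Bi A y i := by
  ext w
  rw [mem_Bi, mem_Bi]
  constructor
  · rintro (hw | ⟨j, hj, hw⟩)
    · exact Or.inl hw
    · exact Or.inr ⟨j, hj, by rw [← h j hj]; exact hw⟩
  · rintro (hw | ⟨j, hj, hw⟩)
    · exact Or.inl hw
    · exact Or.inr ⟨j, hj, by rw [h j hj]; exact hw⟩

/-- the indices below `a` -/
def J1 (k a : ℕ) : Finset (Fin k) := univ.filter (fun j : Fin k => (j : ℕ) < a)

/-- the indices between `a` and `i` -/
def J2 (k a i : ℕ) : Finset (Fin k) := univ.filter (fun j : Fin k => a ≤ (j : ℕ) ∧ (j : ℕ) < i)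

lemma card_J1 {k a : ℕ} (h : a ≤ k) : (J1 k a).card = a := by
  unfold J1
  rw [Fin.card_filter_val_lt]
  exact min_eq_right h

lemma card_J2 {k a i : ℕ} (h : i ≤ k) (hai : a ≤ i) : (J2 k a i).card = i - a := by
  have h1 : J2 k a i = J1 k i \ J1 k a := by
    ext j
    simp only [J1, J2, mem_filter, mem_sdiff, mem_univ, true_and, not_lt]
    exact and_comm
  have h2 : J1 k a ⊆ J1 k i := by
    intro j hj
    simp only [J1, mem_filter, mem_univ, true_and] at hj ⊢
    omega
  rw [h1, Finset.card_sdiff_of_subset h2, card_J1 h, card_J1 (hai.trans h)]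

/-- the sequences which miss `Z` on `J` -/
noncomputable def av {k : ℕ} (J : Finset (Fin k)) (Z : Finset V) : Finset (Fin k → V) :=
  univ.filter (fun x : Fin k → V => ∀ j ∈ J, x j ∉ Z)

end CST_

open CST_ in
theorem p_CST (hK : T_KEY) (hA : T_AVO) (hI : T_IND) : T_CST := by
  intro V _ G A k i g d v hik hg hd0 hdn hSS hD hvA hZ
  have hn : 1 ≤ Fintype.card V := Fintype.card_pos_iff.2 ⟨v⟩
  have hnR : (0 : ℝ) < Fintype.card V := by exact_mod_cast hn
  set n : ℝ := (Fintype.card V : ℝ) with hndef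
  set a := i / 2 with ha
  have hai : a ≤ i := Nat.div_le_self i 2
  set cost : (Fin k → V) → ℝ := fun x => Real.logb 2 (cz G (Bi A x i) v) with hcost
  set E1 : Finset (Fin k → V) := av (J1 k a) (ZZ G A v) with hE1
  have hE1c : (E1.card : ℝ) ≤ (1 - d / (2 * n)) ^ a * n ^ k := by
    have h1 := hA V k (J1 k a) (ZZ G A v) (d / 2) (by linarith) hZ
    rw [card_J1 (hai.trans hik), div_div] at h1
    exact h1
  have hrho : 0 ≤ 1 - d / n := by
    have : d / n ≤ 1 := (div_le_one hnR).2 hdn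
    linarith
  have hlogn : 0 ≤ Real.logb 2 n := Real.logb_nonneg (by norm_num) (by
    rw [hndef]; exact_mod_cast hn)
  -- outside of the exceptional set
  have hY : ∀ x, x ∉ E1 → ((cl G (Bi A x a) v).card : ℝ) ≤ g := by
    intro x hx
    rw [hE1, av, mem_filter, not_and] at hx
    have hx2 := hx (mem_univ x)
    push Not at hx2
    obtain ⟨j, hj, hjZ⟩ := hx2
    rw [ZZ, mem_filter] at hjZ
    have h1 : insert (x j) A ⊆ Bi A x a := by
      intro w hw
      rw [mem_insert] at hw
      rw [mem_Bi]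
      rcases hw with hw | hw
      · refine Or.inr ⟨j, ?_, hw.symm⟩
        simpa [J1] using hj
      · exact Or.inl hw
    have h2 : cl G (Bi A x a) v ⊆ SS G A (x j) :=
      (cl_mono h1 v).trans ((hK V G A v hvA).2 (x j) hjZ.2.2)
    have h3 : ((cl G (Bi A x a) v).card : ℝ) ≤ ((SS G A (x j)).card : ℝ) := by
      exact_mod_cast Finset.card_le_card h2
    exact h3.trans (hSS _ hjZ.2.1)
  have hsub : ∀ x : Fin k → V, cl G (Bi A x i) v ⊆ cl G (Bi A x a) v := fun x =>
    cl_mono (Bi_mono A x hai) v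
  have hc1 : ∀ x, x ∉ E1 → cost x ≤ Real.logb 2 g := by
    intro x hx
    rw [hcost]
    refine Real.logb_le_logb_of_le (by norm_num) (by exact_mod_cast cz_pos G _ v) ?_
    unfold cz
    split_ifs with h
    · simpa using hg
    · refine le_trans ?_ (hY x hx)
      exact_mod_cast Finset.card_le_card (hsub x)
  set F : V → (Fin k → V) → ℝ := fun y x =>
    if x ∉ E1 ∧ y ≠ v ∧ y ∈ cl G (Bi A x a) v then 1 else 0 with hF
  set H : V → (Fin k → V) → ℝ := fun y x =>
    if x ∈ av (J2 k a i) (dset G v y) then 1 else 0 with hH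
  have hF0 : ∀ y x, 0 ≤ F y x := by
    intro y x
    rw [hF]
    dsimp only
    split_ifs <;> norm_num
  have hH0 : ∀ y x, 0 ≤ H y x := by
    intro y x
    rw [hH]
    dsimp only
    split_ifs <;> norm_num
  have hc2 : ∀ x, x ∉ E1 → cost x ≤ ∑ y, F y x * H y x := by
    intro x hx
    rw [hcost]
    by_cases h : v ∈ Bi A x i
    · have h1 : Real.logb 2 ((cz G (Bi A x i) v : ℕ) : ℝ) = 0 := by
        unfold cz
        rw [if_pos h]
        simp
      dsimp only
      rw [h1]
      exact Finset.sum_nonneg fun y _ => mul_nonneg (hF0 y x) (hH0 y x)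
    · have h1 : cz G (Bi A x i) v = (cl G (Bi A x i) v).card := by
        unfold cz
        rw [if_neg h]
      dsimp only
      rw [h1]
      have hv1 : v ∈ cl G (Bi A x i) v := self_mem_cl h
      refine (logb_nat_le (Finset.card_pos.2 ⟨v, hv1⟩)).trans ?_
      have h2 : (((cl G (Bi A x i) v).erase v).card : ℝ) =
          ((cl G (Bi A x i) v).card : ℝ) - 1 := by
        rw [Finset.card_erase_of_mem hv1, Nat.cast_sub (Finset.card_pos.2 ⟨v, hv1⟩)]
        simp
      rw [← h2, Finset.card_eq_sum_ones]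
      push_cast
      refine (Finset.sum_le_sum fun y hy => ?_).trans
        (Finset.sum_le_sum_of_subset_of_nonneg (Finset.subset_univ _)
          fun y _ _ => mul_nonneg (hF0 y x) (hH0 y x))
      rw [mem_erase] at hy
      have hy2 := mem_cl.1 hy.2
      have e1 : F y x = 1 := by
        rw [hF]
        exact if_pos ⟨hx, hy.1, hsub x hy.2⟩
      have e2 : H y x = 1 := by
        rw [hH]
        refine if_pos ?_
        rw [av, mem_filter]
        refine ⟨mem_univ _, fun j hj hjd => ?_⟩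
        rw [J2, mem_filter] at hj
        have hjB : x j ∈ Bi A x i := mem_Bi.2 (Or.inr ⟨j, hj.2.2, rfl⟩)
        exact (mem_dset.1 hjd).2.2 (hy2.2 _ hjB)
      rw [e1, e2, mul_one]
  -- the second moment
  have hsumF : ∀ x, ∑ y, F y x ≤ g := by
    intro x
    by_cases hx : x ∈ E1
    · refine le_trans (le_of_eq (Finset.sum_eq_zero fun y _ => ?_)) (by linarith)
      rw [hF]
      exact if_neg fun h => h.1 hx
    · refine le_trans ?_ (hY x hx)
      rw [Finset.card_eq_sum_ones]
      push_cast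
      rw [← Finset.sum_subset (Finset.subset_univ (cl G (Bi A x a) v))]
      · refine Finset.sum_le_sum fun y _ => ?_
        rw [hF]
        dsimp only
        split_ifs <;> norm_num
      · intro y _ hy
        rw [hF]
        exact if_neg fun h => hy h.2.2
  have hFH : ∀ y, ∑ x, F y x * H y x ≤ (1 - d / n) ^ (i - a) * ∑ x, F y x := by
    intro y
    by_cases hyv : y = v
    · have h1 : ∀ x, F y x = 0 := by
        intro x
        rw [hF]
        exact if_neg fun h => h.2.1 hyv
      simp [h1]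
    · have hdep1 : ∀ x x', (∀ j ∈ J1 k a, x j = x' j) → F y x = F y x' := by
        intro x x' hxx
        have h2 : ∀ j : Fin k, (j : ℕ) < a → x j = x' j := fun j hj =>
          hxx j (by simpa [J1] using hj)
        have h3 : Bi A x a = Bi A x' a := Bi_congr A h2
        have h4 : x ∈ E1 ↔ x' ∈ E1 := by
          rw [hE1, av, mem_filter, mem_filter]
          constructor
          · intro h
            exact ⟨mem_univ _, fun j hj => by rw [← hxx j hj]; exact h.2 j hj⟩
          · intro h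
            exact ⟨mem_univ _, fun j hj => by rw [hxx j hj]; exact h.2 j hj⟩
        rw [hF]
        simp only [h3, h4]
      have hdep2 : ∀ x x', (∀ j, j ∉ J1 k a → x j = x' j) → H y x = H y x' := by
        intro x x' hxx
        have h2 : ∀ j ∈ J2 k a i, x j = x' j := by
          intro j hj
          refine hxx j fun hj1 => ?_
          rw [J2, mem_filter] at hj
          rw [J1, mem_filter] at hj1
          omega
        have h4 : x ∈ av (J2 k a i) (dset G v y) ↔ x' ∈ av (J2 k a i) (dset G v y) := by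
          rw [av, mem_filter, mem_filter]
          constructor
          · intro h
            exact ⟨mem_univ _, fun j hj => by rw [← h2 j hj]; exact h.2 j hj⟩
          · intro h
            exact ⟨mem_univ _, fun j hj => by rw [h2 j hj]; exact h.2 j hj⟩
        rw [hH]
        simp only [h4]
      have h5 := hI V k (J1 k a) (F y) (H y) hdep1 hdep2
      have h6 : ∑ x, H y x ≤ (1 - d / n) ^ (i - a) * n ^ k := by
        have h7 := hA V k (J2 k a i) (dset G v y) d hd0 (hD v y (Ne.symm hyv))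
        rw [card_J2 hik hai] at h7
        refine le_trans (le_of_eq ?_) h7
        rw [hH]
        dsimp only
        rw [Finset.sum_boole]
        congr 2
        ext x
        simp [av]
      have h8 : 0 ≤ ∑ x, F y x := Finset.sum_nonneg fun x _ => hF0 y x
      have hnk : 0 < n ^ k := pow_pos hnR k
      have h9 : n ^ k * ∑ x, F y x * H y x ≤
          n ^ k * ((1 - d / n) ^ (i - a) * ∑ x, F y x) := by
        calc n ^ k * ∑ x, F y x * H y x = (∑ x, F y x) * ∑ x, H y x := h5
          _ ≤ (∑ x, F y x) * ((1 - d / n) ^ (i - a) * n ^ k) :=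
              mul_le_mul_of_nonneg_left h6 h8
          _ = n ^ k * ((1 - d / n) ^ (i - a) * ∑ x, F y x) := by ring
      exact le_of_mul_le_mul_left h9 hnk
  have hcard : ((Finset.univ : Finset (Fin k → V)).card : ℝ) = n ^ k := by
    rw [Finset.card_univ, Fintype.card_fun, Fintype.card_fin]
    push_cast
    rfl
  have hpow : 0 ≤ (1 - d / n) ^ (i - a) := pow_nonneg hrho _
  have htot : ∑ y, ∑ x, F y x * H y x ≤ n ^ k * (g * (1 - d / n) ^ (i - a)) := by
    calc ∑ y, ∑ x, F y x * H y x ≤ ∑ y, (1 - d / n) ^ (i - a) * ∑ x, F y x :=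
          Finset.sum_le_sum fun y _ => hFH y
      _ = (1 - d / n) ^ (i - a) * ∑ x, ∑ y, F y x := by
          rw [← Finset.mul_sum, Finset.sum_comm]
      _ ≤ (1 - d / n) ^ (i - a) * ∑ _x : Fin k → V, g :=
          mul_le_mul_of_nonneg_left (Finset.sum_le_sum fun x _ => hsumF x) hpow
      _ = n ^ k * (g * (1 - d / n) ^ (i - a)) := by
          rw [Finset.sum_const, nsmul_eq_mul, hcard]
          ring
  -- summation
  have hsplit : ∑ x, cost x = ∑ x ∈ E1, cost x + ∑ x ∈ E1ᶜ, cost x :=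
    (Finset.sum_add_sum_compl E1 cost).symm
  have hb1 : ∑ x ∈ E1, cost x ≤ n ^ k * (Real.logb 2 n * (1 - d / (2 * n)) ^ a) := by
    calc ∑ x ∈ E1, cost x ≤ ∑ _x ∈ E1, Real.logb 2 n :=
          Finset.sum_le_sum fun x _ => cost_le G (Bi A x i) v
      _ = E1.card * Real.logb 2 n := by rw [Finset.sum_const, nsmul_eq_mul]
      _ ≤ ((1 - d / (2 * n)) ^ a * n ^ k) * Real.logb 2 n :=
          mul_le_mul_of_nonneg_right hE1c hlogn
      _ = n ^ k * (Real.logb 2 n * (1 - d / (2 * n)) ^ a) := by ring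
  have hlogg : 0 ≤ Real.logb 2 g := Real.logb_nonneg (by norm_num) hg
  have hb2 : ∑ x ∈ E1ᶜ, cost x ≤ n ^ k * Real.logb 2 g := by
    calc ∑ x ∈ E1ᶜ, cost x ≤ ∑ _x ∈ E1ᶜ, Real.logb 2 g :=
          Finset.sum_le_sum fun x hx => hc1 x (Finset.mem_compl.1 hx)
      _ ≤ ∑ _x : Fin k → V, Real.logb 2 g :=
          Finset.sum_le_sum_of_subset_of_nonneg (Finset.subset_univ _) fun _ _ _ => hlogg
      _ = n ^ k * Real.logb 2 g := by rw [Finset.sum_const, nsmul_eq_mul, hcard]
  have hb3 : ∑ x ∈ E1ᶜ, cost x ≤ n ^ k * (g * (1 - d / n) ^ (i - a)) := by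
    calc ∑ x ∈ E1ᶜ, cost x ≤ ∑ x ∈ E1ᶜ, ∑ y, F y x * H y x :=
          Finset.sum_le_sum fun x hx => hc2 x (Finset.mem_compl.1 hx)
      _ ≤ ∑ x : Fin k → V, ∑ y, F y x * H y x :=
          Finset.sum_le_sum_of_subset_of_nonneg (Finset.subset_univ _) fun x _ _ =>
            Finset.sum_nonneg fun y _ => mul_nonneg (hF0 y x) (hH0 y x)
      _ = ∑ y, ∑ x, F y x * H y x := Finset.sum_comm
      _ ≤ _ := htot
  have hb4 : ∑ x ∈ E1ᶜ, cost x ≤
      n ^ k * min (Real.logb 2 g) (g * (1 - d / n) ^ (i - a)) := by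
    rcases min_choice (Real.logb 2 g) (g * (1 - d / n) ^ (i - a)) with h | h
    · rw [h]
      exact hb2
    · rw [h]
      exact hb3
  have hfin : ∑ x, cost x ≤ n ^ k * (Real.logb 2 n * (1 - d / (2 * n)) ^ a +
      min (Real.logb 2 g) (g * (1 - d / n) ^ (i - a))) := by
    rw [hsplit, mul_add]
    exact add_le_add hb1 hb4
  exact hfin

end Pool.Agent.RNB
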