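import Pool.Agent.RNB.Targets

/-!
# RNB: random sequences distinguish all pairs
-/

set_option autoImplicit false

open Finset Classical

namespace Pool.Agent.RNB

open Pool.Agent.Lib.Recon

namespace DIS_

/-- union bound over the pairs -/
theorem bound (hA : T_AVO) (V : Type) [Fintype V] (G : SimpleGraph V) (k : ℕ) (d : ℝ)
    (hd0 : 0 ≤ d) (hdn : d ≤ Fintype.card V) (hn : 0 < Fintype.card V)
    (hds : ∀ u v, u ≠ v → d ≤ ((dset G u v).card : ℝ)) :
    ((univ.filter (fun x : Fin k → V =>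
      ∃ u v, u ≠ v ∧ ∀ j, x j ∉ dset G u v)).card : ℝ) ≤
      (Fintype.card V : ℝ) ^ 2 *
        ((1 - d / Fintype.card V) ^ k * (Fintype.card V : ℝ) ^ k) := by
  have hsub : univ.filter (fun x : Fin k → V => ∃ u v, u ≠ v ∧ ∀ j, x j ∉ dset G u v) ⊆
      ((univ : Finset (V × V)).filter (fun p => p.1 ≠ p.2)).biUnion
        (fun p => univ.filter (fun x : Fin k → V =>
          ∀ j ∈ (univ : Finset (Fin k)), x j ∉ dset G p.1 p.2)) := by
    intro x hx
    obtain ⟨-, u, v, huv, h⟩ := mem_filter.1 hx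
    refine mem_biUnion.2 ⟨(u, v), mem_filter.2 ⟨mem_univ _, huv⟩, ?_⟩
    exact mem_filter.2 ⟨mem_univ _, fun j _ => h j⟩
  have h1 : ((univ.filter (fun x : Fin k → V =>
      ∃ u v, u ≠ v ∧ ∀ j, x j ∉ dset G u v)).card : ℝ) ≤
      ∑ p ∈ (univ : Finset (V × V)).filter (fun p => p.1 ≠ p.2),
        ((univ.filter (fun x : Fin k → V =>
          ∀ j ∈ (univ : Finset (Fin k)), x j ∉ dset G p.1 p.2)).card : ℝ) := by
    have h2 := (card_le_card hsub).trans card_biUnion_le
    calc _ ≤ ((∑ p ∈ (univ : Finset (V × V)).filter (fun p => p.1 ≠ p.2),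
        (univ.filter (fun x : Fin k → V =>
          ∀ j ∈ (univ : Finset (Fin k)), x j ∉ dset G p.1 p.2)).card : ℕ) : ℝ) := by
            exact_mod_cast h2
      _ = _ := by push_cast; rfl
  refine h1.trans ?_
  have hX : 0 ≤ (1 - d / Fintype.card V) ^ k * (Fintype.card V : ℝ) ^ k := by
    have hn' : (0 : ℝ) < Fintype.card V := by exact_mod_cast hn
    have : 0 ≤ 1 - d / Fintype.card V := by
      rw [sub_nonneg, div_le_one hn']
      exact hdn
    positivity
  have h3 : ∀ p ∈ (univ : Finset (V × V)).filter (fun p => p.1 ≠ p.2),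
      ((univ.filter (fun x : Fin k → V =>
          ∀ j ∈ (univ : Finset (Fin k)), x j ∉ dset G p.1 p.2)).card : ℝ) ≤
        (1 - d / Fintype.card V) ^ k * (Fintype.card V : ℝ) ^ k := by
    intro p hp
    have h4 := hA V k univ (dset G p.1 p.2) d hd0 (hds _ _ (mem_filter.1 hp).2)
    rw [card_univ, Fintype.card_fin] at h4
    exact h4
  refine (sum_le_sum h3).trans ?_
  rw [sum_const, nsmul_eq_mul]
  refine mul_le_mul_of_nonneg_right ?_ hX
  have h5 : ((univ : Finset (V × V)).filter (fun p => p.1 ≠ p.2)).card ≤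
      Fintype.card V ^ 2 := by
    refine (card_filter_le _ _).trans (le_of_eq ?_)
    rw [card_univ, Fintype.card_prod, sq]
  exact_mod_cast h5

end DIS_

theorem p_DIS (hA : T_AVO) (hN : T_NUB) : T_DIS := by
  intro V _ G d h3 hd hdn hds
  have hn : 0 < Fintype.card V := by omega
  have hn1 : (1 : ℝ) ≤ Fintype.card V := by exact_mod_cast hn
  have hd0 : 0 ≤ d := by
    refine le_trans ?_ hd
    have := Real.logb_nonneg (by norm_num : (1 : ℝ) < 2) hn1
    positivity
  refine (DIS_.bound hA V G _ d hd0 hdn hn hds).trans ?_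
  have h := hN (Fintype.card V) d h3 hd hdn
  have hP : 0 ≤ (Fintype.card V : ℝ) ^ (Fintype.card V / 64) := by positivity
  calc (Fintype.card V : ℝ) ^ 2 * ((1 - d / Fintype.card V) ^ (Fintype.card V / 64) *
        (Fintype.card V : ℝ) ^ (Fintype.card V / 64))
      = ((Fintype.card V : ℝ) ^ 2 * (1 - d / Fintype.card V) ^ (Fintype.card V / 64)) *
        (Fintype.card V : ℝ) ^ (Fintype.card V / 64) := by ring
    _ ≤ 1 / 8 * (Fintype.card V : ℝ) ^ (Fintype.card V / 64) :=
        mul_le_mul_of_nonneg_right h hP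
    _ = _ := by ring

end Pool.Agent.RNB
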