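import Pool.Agent.RNB.Targets

/-!
# RNB: EWW, the mean of the weight exponent of a random sequence
-/

set_option autoImplicit false

open Finset Classical

namespace Pool.Agent.RNB

open Pool.Agent.Lib.Recon

namespace EWW_

lemma Bi_update {V : Type} [Fintype V] {k : ℕ} (A : Finset V) (x : Fin k → V) (i : Fin k)
    (u : V) : Bi A (Function.update x i u) (i : ℕ) = Bi A x (i : ℕ) := by
  unfold Bi
  congr 1
  apply Finset.image_congr
  intro j hj
  have hj' : (j : ℕ) < (i : ℕ) := by simpa using hj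
  have hne : j ≠ i := by
    rintro rfl
    exact lt_irrefl _ hj'
  exact Function.update_of_ne hne u x

lemma logb_nat_nonneg (m : ℕ) : 0 ≤ Real.logb 2 (m : ℝ) := by
  rcases Nat.eq_zero_or_pos m with rfl | h
  · simp
  · exact Real.logb_nonneg (by norm_num) (by exact_mod_cast h)

lemma cost_le {V : Type} [Fintype V] (G : SimpleGraph V) (A B : Finset V) (hAB : A ⊆ B) (v : V) :
    Real.logb 2 (cz G B v : ℝ) ≤ Real.logb 2 ((cl G A v).card : ℝ) := by
  by_cases hv : v ∈ B
  · have h1 : cz G B v = 1 := if_pos hv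
    rw [h1]
    simpa using logb_nat_nonneg (cl G A v).card
  · have h1 : cz G B v = (cl G B v).card := if_neg hv
    rw [h1]
    have hmem : v ∈ cl G B v := by
      unfold cl
      simp [hv]
    have hpos : 0 < (cl G B v).card := Finset.card_pos.2 ⟨v, hmem⟩
    have hsub : cl G B v ⊆ cl G A v := by
      intro y hy
      unfold cl at hy ⊢
      rw [Finset.mem_filter] at hy ⊢
      exact ⟨mem_univ _, fun h => hy.2.1 (hAB h), fun b hb => hy.2.2 b (hAB hb)⟩
    have hle : (cl G B v).card ≤ (cl G A v).card := Finset.card_le_card hsub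
    exact Real.logb_le_logb_of_le (by norm_num) (by exact_mod_cast hpos) (by exact_mod_cast hle)

lemma sub_Bi {V : Type} [Fintype V] {k : ℕ} (A : Finset V) (x : Fin k → V) (i : ℕ) :
    A ⊆ Bi A x i := by
  unfold Bi
  exact Finset.subset_union_left

lemma cost_zero {V : Type} [Fintype V] (G : SimpleGraph V) (B : Finset V) (v : V) (hv : v ∈ B) :
    Real.logb 2 (cz G B v : ℝ) = 0 := by
  have h1 : cz G B v = 1 := if_pos hv
  rw [h1]
  simp

end EWW_

theorem p_EWW (hL : T_LGT) (hR : T_RES) (hC : T_CST) : T_EWW := by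
  intro V _ G A k g d hn hg hd hdn hSS hds
  have hnpos : (0 : ℝ) < (Fintype.card V : ℝ) := by exact_mod_cast hn
  set n : ℝ := (Fintype.card V : ℝ) with hndef
  set N : ℝ := n ^ k with hNdef
  have hN0 : 0 ≤ N := by positivity
  set c : ℕ → ℝ := fun i => Real.logb 2 n * (1 - d / (2 * n)) ^ (i / 2) +
      min (Real.logb 2 g) (g * (1 - d / n) ^ (i - i / 2)) with hcdef
  have hdn1 : 0 ≤ 1 - d / n := by
    have : d / n ≤ 1 := (div_le_one hnpos).2 hdn
    linarith
  have hdn2 : 0 ≤ 1 - d / (2 * n) := by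
    have : d / (2 * n) ≤ 1 := (div_le_one (by linarith)).2 (by linarith)
    linarith
  have hlogn : 0 ≤ Real.logb 2 n := EWW_.logb_nat_nonneg _
  have hc0 : ∀ i, 0 ≤ c i := by
    intro i
    have h1 : 0 ≤ Real.logb 2 n * (1 - d / (2 * n)) ^ (i / 2) :=
      mul_nonneg hlogn (pow_nonneg hdn2 _)
    have h2 : 0 ≤ min (Real.logb 2 g) (g * (1 - d / n) ^ (i - i / 2)) :=
      le_min (Real.logb_nonneg (by norm_num) hg)
        (mul_nonneg (by linarith) (pow_nonneg hdn1 _))
    exact add_nonneg h1 h2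
  have hcard : ((univ : Finset (Fin k → V)).card : ℝ) = N := by
    rw [Finset.card_univ, Fintype.card_fun, Fintype.card_fin]
    push_cast
    rfl
  -- the bound for each time
  have key : ∀ i : Fin k,
      ∑ x : Fin k → V, Real.logb 2 (cz G (Bi A x (i : ℕ)) (x i) : ℝ) ≤ N * (1 + c (i : ℕ)) := by
    intro i
    have hres := hR V k i (fun x v => Real.logb 2 (cz G (Bi A x (i : ℕ)) v : ℝ))
      (fun x u v => by
        show Real.logb 2 (cz G (Bi A (Function.update x i u) (i : ℕ)) v : ℝ) = _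
        rw [EWW_.Bi_update])
    have hv : ∀ v : V, ∑ x : Fin k → V, Real.logb 2 (cz G (Bi A x (i : ℕ)) v : ℝ) ≤
        N * (if v ∉ A ∧ ((ZZ G A v).card : ℝ) < d / 2 then
          Real.logb 2 ((cl G A v).card : ℝ) else 0) + N * c (i : ℕ) := by
      intro v
      by_cases hvA : v ∈ A
      · have h0 : ∑ x : Fin k → V, Real.logb 2 (cz G (Bi A x (i : ℕ)) v : ℝ) = 0 :=
          Finset.sum_eq_zero (fun x _ => EWW_.cost_zero G _ v (EWW_.sub_Bi A x _ hvA))
        rw [h0, if_neg (fun h => h.1 hvA), mul_zero, zero_add]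
        exact mul_nonneg hN0 (hc0 _)
      · by_cases hz : ((ZZ G A v).card : ℝ) < d / 2
        · rw [if_pos ⟨hvA, hz⟩]
          have h1 : ∑ x : Fin k → V, Real.logb 2 (cz G (Bi A x (i : ℕ)) v : ℝ) ≤
              ∑ _x : Fin k → V, Real.logb 2 ((cl G A v).card : ℝ) :=
            Finset.sum_le_sum (fun x _ => EWW_.cost_le G A _ (EWW_.sub_Bi A x _) v)
          rw [Finset.sum_const, nsmul_eq_mul, hcard] at h1
          have h2 : 0 ≤ N * c (i : ℕ) := mul_nonneg hN0 (hc0 _)
          linarith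
        · rw [if_neg (fun h => hz h.2), mul_zero, zero_add]
          exact hC V G A k (i : ℕ) g d v (le_of_lt i.2) hg hd hdn hSS hds hvA (not_lt.1 hz)
    have hsum : ∑ v : V, ∑ x : Fin k → V, Real.logb 2 (cz G (Bi A x (i : ℕ)) v : ℝ) ≤
        N * n + n * (N * c (i : ℕ)) := by
      refine (Finset.sum_le_sum (fun v _ => hv v)).trans ?_
      rw [Finset.sum_add_distrib, ← Finset.mul_sum, Finset.sum_const, nsmul_eq_mul,
        Finset.card_univ, ← Finset.sum_filter]
      have h3 := hL V G A d hds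
      have h4 := mul_le_mul_of_nonneg_left h3 hN0
      linarith
    have h5 : n * ∑ x : Fin k → V, Real.logb 2 (cz G (Bi A x (i : ℕ)) (x i) : ℝ) ≤
        n * (N * (1 + c (i : ℕ))) := by
      rw [hres]
      refine hsum.trans (le_of_eq ?_)
      ring
    exact le_of_mul_le_mul_left h5 hnpos
  have hWW : ∑ x : Fin k → V, WW G A x =
      ∑ i : Fin k, ∑ x : Fin k → V, Real.logb 2 (cz G (Bi A x (i : ℕ)) (x i) : ℝ) := by
    unfold WW
    exact Finset.sum_comm
  rw [hWW]
  refine (Finset.sum_le_sum (fun i _ => key i)).trans (le_of_eq ?_)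
  rw [← Finset.mul_sum, Finset.sum_add_distrib, Finset.sum_const, Finset.card_univ,
    Fintype.card_fin, nsmul_eq_mul, mul_one, ← Fin.sum_univ_eq_sum_range c k]

end Pool.Agent.RNB
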