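import Pool.Agent.RNB.Targets

set_option autoImplicit false

/-!
# RNB: IND, independence of functions of disjoint sets of entries
-/

open Finset Classical

namespace Pool.Agent.RNB

open Pool.Agent.Lib.Recon

namespace IND_

variable {V : Type} {k : ℕ}

/-- the entries in `J` from `x`, the others from `y` -/
noncomputable def mx (J : Finset (Fin k)) (x y : Fin k → V) : Fin k → V :=
  fun j => if j ∈ J then x j else y j

theorem mx_mx (J : Finset (Fin k)) (x y : Fin k → V) : mx J (mx J x y) (mx J y x) = x := by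
  funext j
  unfold mx
  by_cases h : j ∈ J
  · simp [h]
  · simp [h]

/-- the exchange of the entries outside of `J` -/
noncomputable def ex (J : Finset (Fin k)) :
    ((Fin k → V) × (Fin k → V)) ≃ ((Fin k → V) × (Fin k → V)) where
  toFun p := (mx J p.1 p.2, mx J p.2 p.1)
  invFun p := (mx J p.1 p.2, mx J p.2 p.1)
  left_inv p := Prod.ext (mx_mx J p.1 p.2) (mx_mx J p.2 p.1)
  right_inv p := Prod.ext (mx_mx J p.1 p.2) (mx_mx J p.2 p.1)

end IND_

open IND_ in
theorem p_IND : T_IND := by
  intro V _ k J F H hF hH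
  have h1 : ∀ p : (Fin k → V) × (Fin k → V), F p.1 * H p.2 =
      F (ex J p).1 * H (ex J p).1 := by
    intro p
    have e1 : F p.1 = F (ex J p).1 := hF _ _ fun j hj => by
      change p.1 j = mx J p.1 p.2 j
      simp [mx, hj]
    have e2 : H p.2 = H (ex J p).1 := hH _ _ fun j hj => by
      change p.2 j = mx J p.1 p.2 j
      simp [mx, hj]
    rw [← e1, ← e2]
  have h2 : (∑ x, F x) * ∑ x, H x = ∑ p : (Fin k → V) × (Fin k → V), F p.1 * H p.2 := by
    rw [Fintype.sum_prod_type, Finset.sum_mul_sum]
  have h3 : ∑ p : (Fin k → V) × (Fin k → V), F (ex J p).1 * H (ex J p).1 =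
      ∑ p : (Fin k → V) × (Fin k → V), F p.1 * H p.1 :=
    Equiv.sum_comp (ex J) fun p : (Fin k → V) × (Fin k → V) => F p.1 * H p.1
  rw [h2, Finset.sum_congr rfl fun p _ => h1 p, h3, Fintype.sum_prod_type]
  simp only [Finset.sum_const, Finset.card_univ, nsmul_eq_mul]
  rw [← Finset.mul_sum]
  simp

end Pool.Agent.RNB
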