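import Pool.Agent.RNB.Targets

set_option autoImplicit false

open Finset Classical

namespace Pool.Agent.RNB

open Pool.Agent.Lib.Recon

namespace LGT_

theorem logb_le (c : ℕ) : Real.logb 2 (c : ℝ) ≤ c := by
  rcases Nat.eq_zero_or_pos c with rfl | hc
  · simp
  · have h1 : (c : ℝ) ≤ (2 : ℝ) ^ (c : ℝ) := by
      rw [Real.rpow_natCast]
      exact_mod_cast (Nat.lt_two_pow_self (n := c)).le
    have h2 : (0 : ℝ) < c := by exact_mod_cast hc
    exact (Real.logb_le_iff_le_rpow (by norm_num) h2).2 h1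

end LGT_

theorem p_LGT (hK : T_KEY) : T_LGT := by
  intro V _ G A d hd
  set Q := univ.filter (fun v => v ∉ A ∧ ((ZZ G A v).card : ℝ) < d / 2) with hQ
  have hdisj : (Q : Set V).PairwiseDisjoint fun v => cl G A v := by
    intro v hv y hy hvy
    rw [Function.onFun, Finset.disjoint_left]
    intro w hw1 hw2
    have hv' : v ∉ A ∧ ((ZZ G A v).card : ℝ) < d / 2 := by
      simpa [hQ] using hv
    have hy' : y ∉ A ∧ ((ZZ G A y).card : ℝ) < d / 2 := by
      simpa [hQ] using hy
    have hyc : y ∈ cl G A v := by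
      unfold cl at hw1 hw2 ⊢
      rw [Finset.mem_filter] at hw1 hw2 ⊢
      refine ⟨Finset.mem_univ _, hy'.1, fun b hb => ?_⟩
      rw [hw1.2.2 b hb, hw2.2.2 b hb]
    have hsub : dset G v y ⊆ ZZ G A v ∪ ZZ G A y := by
      intro z hz
      rw [Finset.mem_union]
      exact ((hK V G A v hv'.1).1 y z hyc hvy hz).2
    have h1 := (Finset.card_le_card hsub).trans (Finset.card_union_le _ _)
    have h2 : ((dset G v y).card : ℝ) ≤ (ZZ G A v).card + (ZZ G A y).card := by
      exact_mod_cast h1
    have h3 := hd v y hvy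
    linarith [hv'.2, hy'.2]
  calc ∑ v ∈ Q, Real.logb 2 ((cl G A v).card : ℝ) ≤ ∑ v ∈ Q, ((cl G A v).card : ℝ) :=
        Finset.sum_le_sum fun v _ => LGT_.logb_le _
    _ = ((Q.biUnion fun v => cl G A v).card : ℝ) := by
        rw [Finset.card_biUnion fun v hv y hy hvy => hdisj hv hy hvy]
        push_cast
        rfl
    _ ≤ Fintype.card V := by
        exact_mod_cast Finset.card_le_univ _

end Pool.Agent.RNB
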