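import Pool.Agent.RNB.Targets

/-!
# RNB, target LRG: numerical bounds
-/

set_option autoImplicit false

open Finset Classical

namespace Pool.Agent.RNB

open Pool.Agent.Lib.Recon

namespace LRG_

theorem le_logb {k n : ℕ} (h : 2 ^ k ≤ n) : (k : ℝ) ≤ Real.logb 2 n := by
  have h1 : (2 : ℝ) ^ k ≤ n := by exact_mod_cast h
  have h2 : (0 : ℝ) < n := lt_of_lt_of_le (by positivity) h1
  rw [Real.le_logb_iff_rpow_le one_lt_two h2, Real.rpow_natCast]
  exact h1

theorem logb_sq {L : ℝ} (hL : 13 ≤ L) : Real.logb 2 (64 * L ^ 2) ≤ 4 * √L := by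
  have hL0 : 0 ≤ L := by linarith
  set t : ℝ := √L with ht
  have ht2 : t ^ 2 = L := Real.sq_sqrt hL0
  have ht0 : 0 ≤ t := Real.sqrt_nonneg L
  have ht1 : 3.6 ≤ t := by
    rw [ht]
    apply Real.le_sqrt_of_sq_le
    norm_num
    linarith
  have htpos : 0 < t := by linarith
  have hc : 0.69 ≤ Real.log 2 := by
    have := Real.log_two_gt_d9
    linarith
  have h4 : Real.log 4 = 2 * Real.log 2 := by
    rw [show (4 : ℝ) = 2 ^ 2 by norm_num, Real.log_pow]
    norm_num
  have h64 : Real.log 64 = 6 * Real.log 2 := by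
    rw [show (64 : ℝ) = 2 ^ 6 by norm_num, Real.log_pow]
    norm_num
  have hlog : Real.log t ≤ 2 * Real.log 2 + (t / 4 - 1) := by
    have h1 := Real.log_le_sub_one_of_pos (show 0 < t / 4 by positivity)
    rw [Real.log_div htpos.ne' (by norm_num), h4] at h1
    linarith
  have hmain : Real.log t ≤ (t - 3 / 2) * Real.log 2 := by
    nlinarith [mul_nonneg (show 0 ≤ t - 7 / 2 by linarith) (show 0 ≤ Real.log 2 - 0.69 by linarith)]
  have hexp : Real.log (64 * L ^ 2) = 6 * Real.log 2 + 4 * Real.log t := by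
    rw [← ht2, Real.log_mul (by norm_num) (by positivity), h64, ← pow_mul, Real.log_pow]
    norm_num
  rw [Real.logb, hexp, div_le_iff₀ (by linarith)]
  linarith

end LRG_

open LRG_ in
/-- Target LRG. -/
theorem p_LRG : T_LRG := by
  intro n hn h
  have h1 : (1 : ℝ) ≤ Real.logb 2 n := by
    have := le_logb (k := 1) (n := n) (by omega)
    simpa using this
  have h2 : 1000 ≤ n := by
    have : (1000 : ℝ) ≤ n := by linarith
    exact_mod_cast this
  have h3 : (9 : ℝ) ≤ Real.logb 2 n := by
    have := le_logb (k := 9) (n := n) (by norm_num; omega)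
    simpa using this
  have h4 : 9000 ≤ n := by
    have : (9000 : ℝ) ≤ n := by linarith
    exact_mod_cast this
  have h5 : (13 : ℝ) ≤ Real.logb 2 n := by
    have := le_logb (k := 13) (n := n) (by norm_num; omega)
    simpa using this
  refine ⟨?_, h5, logb_sq h5⟩
  have : (13000 : ℝ) ≤ n := by linarith
  exact_mod_cast this

end Pool.Agent.RNB
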