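import Pool.Agent.RNB.Targets

/-!
# RNB: NET
-/

set_option autoImplicit false

open Finset Classical

namespace Pool.Agent.RNB

open Pool.Agent.Lib.Recon

namespace NET_

variable {V : Type} [Fintype V]

/-- the potential -/
noncomputable def Phi (G : SimpleGraph V) (A : Finset V) : ℝ :=
  ∑ v ∈ univ.filter (fun v => v ∉ A), Real.logb 2 (cl G A v).card

theorem card_pos {G : SimpleGraph V} {A : Finset V} {v : V} (hv : v ∉ A) :
    1 ≤ (cl G A v).card := by
  apply Finset.card_pos.2
  refine ⟨v, ?_⟩
  unfold cl
  rw [Finset.mem_filter]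
  exact ⟨mem_univ _, hv, fun b _ => Iff.rfl⟩

theorem log_nonneg {G : SimpleGraph V} {A : Finset V} {v : V} (hv : v ∉ A) :
    0 ≤ Real.logb 2 (cl G A v).card := by
  apply Real.logb_nonneg (by norm_num)
  exact_mod_cast card_pos hv

theorem phi_nonneg (G : SimpleGraph V) (A : Finset V) : 0 ≤ Phi G A := by
  apply Finset.sum_nonneg
  intro v hv
  exact log_nonneg (Finset.mem_filter.1 hv).2

theorem phi_empty (G : SimpleGraph V) :
    Phi G ∅ = Fintype.card V * Real.logb 2 (Fintype.card V) := by
  unfold Phi
  have h1 : ∀ v ∈ univ.filter (fun v : V => v ∉ (∅ : Finset V)),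
      Real.logb 2 (cl G ∅ v).card = Real.logb 2 (Fintype.card V) := by
    intro v _
    have h2 : cl G ∅ v = univ := by
      unfold cl
      ext y
      simp
    rw [h2, Finset.card_univ]
  rw [Finset.sum_congr rfl h1, Finset.sum_const, nsmul_eq_mul]
  congr 2
  simp

theorem cl_anti (G : SimpleGraph V) (A : Finset V) (z v : V) :
    cl G (insert z A) v ⊆ cl G A v := by
  intro y hy
  unfold cl at hy ⊢
  rw [Finset.mem_filter] at hy ⊢
  refine ⟨mem_univ _, fun h => hy.2.1 (Finset.mem_insert_of_mem h), fun b hb => ?_⟩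
  exact hy.2.2 b (Finset.mem_insert_of_mem hb)

theorem term (G : SimpleGraph V) (A : Finset V) (z v : V) (hv : v ∉ insert z A) :
    Real.logb 2 (cl G (insert z A) v).card + (if v ∈ SS G A z then (1 : ℝ) else 0) ≤
      Real.logb 2 (cl G A v).card := by
  have h1 : (1 : ℝ) ≤ ((cl G (insert z A) v).card : ℝ) := by exact_mod_cast card_pos hv
  by_cases h : v ∈ SS G A z
  · rw [if_pos h]
    unfold SS at h
    rw [Finset.mem_filter] at h
    have h2 : (2 : ℝ) * ((cl G (insert z A) v).card : ℝ) ≤ ((cl G A v).card : ℝ) := by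
      exact_mod_cast h.2.2.2
    have h3 : Real.logb 2 (2 * ((cl G (insert z A) v).card : ℝ)) =
        Real.logb 2 (cl G (insert z A) v).card + 1 := by
      rw [Real.logb_mul (by norm_num) (by linarith), Real.logb_self_eq_one (by norm_num)]
      ring
    rw [← h3]
    exact Real.logb_le_logb_of_le (by norm_num) (by linarith) h2
  · rw [if_neg h, add_zero]
    apply Real.logb_le_logb_of_le (by norm_num) (by linarith)
    exact_mod_cast Finset.card_le_card (cl_anti G A z v)

theorem step (G : SimpleGraph V) (A : Finset V) (z : V) (hz : z ∉ A) :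
    Phi G (insert z A) + ((SS G A z).card : ℝ) ≤ Phi G A := by
  have hsub : univ.filter (fun v => v ∉ insert z A) ⊆ univ.filter (fun v => v ∉ A) := by
    intro v hv
    rw [Finset.mem_filter] at hv ⊢
    exact ⟨hv.1, fun h => hv.2 (Finset.mem_insert_of_mem h)⟩
  have h1 : ∑ v ∈ univ.filter (fun v => v ∉ insert z A), Real.logb 2 (cl G A v).card ≤
      Phi G A := by
    unfold Phi
    apply Finset.sum_le_sum_of_subset_of_nonneg hsub
    intro v hv _
    exact log_nonneg (Finset.mem_filter.1 hv).2
  have h2 : Phi G (insert z A) + ((SS G A z).card : ℝ) =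
      ∑ v ∈ univ.filter (fun v => v ∉ insert z A),
        (Real.logb 2 (cl G (insert z A) v).card + (if v ∈ SS G A z then (1 : ℝ) else 0)) := by
    rw [Finset.sum_add_distrib]
    congr 1
    rw [← Finset.sum_filter, Finset.sum_const, nsmul_eq_mul, mul_one]
    congr 2
    ext v
    simp only [Finset.mem_filter, mem_univ, true_and]
    constructor
    · intro h
      refine ⟨?_, h⟩
      unfold SS at h
      rw [Finset.mem_filter] at h
      rw [Finset.mem_insert]
      rintro (h3 | h3)
      · exact h.2.2.1 h3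
      · exact h.2.1 h3
    · exact fun h => h.2
  rw [h2]
  refine le_trans (Finset.sum_le_sum fun v hv => ?_) h1
  exact term G A z v (Finset.mem_filter.1 hv).2

end NET_

theorem p_NET : T_NET := by
  intro V _ G g hg
  obtain ⟨A, -, hA⟩ := Finset.exists_min_image (univ : Finset (Finset V))
    (fun A => NET_.Phi G A + g * A.card) ⟨∅, mem_univ _⟩
  refine ⟨A, ?_, fun z hz => ?_⟩
  · have h1 := hA ∅ (mem_univ _)
    simp only [Finset.card_empty, Nat.cast_zero, mul_zero, add_zero] at h1
    rw [NET_.phi_empty] at h1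
    linarith [NET_.phi_nonneg G A]
  · have h1 := hA (insert z A) (mem_univ _)
    rw [Finset.card_insert_of_notMem hz] at h1
    push_cast at h1
    have h2 := NET_.step G A z hz
    linarith

end Pool.Agent.RNB
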