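import Pool.Agent.RNB.Targets

/-!
# RNB, target NUA: a numerical estimate
-/

set_option autoImplicit false

open Finset Classical

namespace Pool.Agent.RNB

open Pool.Agent.Lib.Recon

namespace NUA_

theorem geom_le (ρ : ℝ) (h0 : 0 ≤ ρ) (h1 : ρ < 1) (k : ℕ) :
    ∑ j ∈ range k, ρ ^ j ≤ (1 - ρ)⁻¹ := by
  have h : (∑ i ∈ range k, ρ ^ i) * (1 - ρ) = 1 - ρ ^ k := geom_sum_mul_neg ρ k
  have h2 : 0 < 1 - ρ := by linarith
  rw [← one_div, le_div_iff₀ h2, h]
  have := pow_nonneg h0 k
  linarith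

theorem half_sum (q : ℝ) (m : ℕ) :
    ∑ i ∈ range (2 * m), q ^ (i / 2) = 2 * ∑ j ∈ range m, q ^ j := by
  induction m with
  | zero => simp
  | succ m ih =>
    have e : 2 * (m + 1) = 2 * m + 1 + 1 := by ring
    rw [e, sum_range_succ, sum_range_succ, ih, sum_range_succ]
    have e1 : (2 * m) / 2 = m := by omega
    have e2 : (2 * m + 1) / 2 = m := by omega
    rw [e1, e2]
    ring

theorem half_le (q : ℝ) (h0 : 0 ≤ q) (h1 : q < 1) (k : ℕ) :
    ∑ i ∈ range k, q ^ (i / 2) ≤ 2 * (1 - q)⁻¹ := by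
  have h2 : ∑ i ∈ range k, q ^ (i / 2) ≤ ∑ i ∈ range (2 * k), q ^ (i / 2) :=
    sum_le_sum_of_subset_of_nonneg (range_subset_range.2 (by omega)) fun i _ _ => pow_nonneg h0 _
  rw [half_sum] at h2
  have := geom_le q h0 h1 k
  linarith

theorem exp_inv (c : ℝ) (hc : 0 < c) : (1 - Real.exp (-c))⁻¹ ≤ 1 + 1 / c := by
  have h1 : c + 1 ≤ Real.exp c := Real.add_one_le_exp c
  have h2 : Real.exp (-c) ≤ (c + 1)⁻¹ := by
    rw [Real.exp_neg]
    exact inv_anti₀ (by linarith) h1
  have h3 : c / (c + 1) ≤ 1 - Real.exp (-c) := by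
    have : c / (c + 1) = 1 - (c + 1)⁻¹ := by
      field_simp
      ring
    linarith
  have h4 : 0 < c / (c + 1) := by positivity
  refine (inv_anti₀ h4 h3).trans (le_of_eq ?_)
  field_simp

theorem min_sum (G g c : ℝ) (hG : 0 ≤ G) (hg : 1 ≤ g) (hc : 0 < c) (k : ℕ) (f : ℕ → ℝ)
    (hf : ∀ i, f i ≤ G) (hf2 : ∀ i : ℕ, f i ≤ g * Real.exp (-(c * i))) (hf0 : ∀ i, 0 ≤ f i) :
    ∑ i ∈ range k, f i ≤ (Real.log g / c + 1) * G + (1 + 1 / c) := by
  have hlg : 0 ≤ Real.log g / c := div_nonneg (Real.log_nonneg hg) hc.le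
  obtain ⟨N, hN1, hN2⟩ : ∃ N : ℕ, Real.log g / c ≤ N ∧ (N : ℝ) ≤ Real.log g / c + 1 :=
    ⟨⌈Real.log g / c⌉₊, Nat.le_ceil _, (Nat.ceil_lt_add_one hlg).le⟩
  have h1 : ∑ i ∈ range k, f i ≤ ∑ i ∈ range (N + k), f i :=
    sum_le_sum_of_subset_of_nonneg (range_subset_range.2 (by omega)) fun i _ _ => hf0 i
  rw [sum_range_add] at h1
  have h2 : ∑ i ∈ range N, f i ≤ N * G := by
    have := sum_le_card_nsmul (range N) f G (fun i _ => hf i)
    simpa using this
  have h3 : ∀ j, f (N + j) ≤ Real.exp (-c) ^ j := by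
    intro j
    refine (hf2 (N + j)).trans ?_
    have e : Real.exp (-(c * ((N + j : ℕ) : ℝ))) = Real.exp (-(c * N)) * Real.exp (-c) ^ j := by
      rw [← Real.exp_nat_mul, ← Real.exp_add]
      congr 1
      push_cast
      ring
    rw [e, ← mul_assoc]
    have h4 : g * Real.exp (-(c * N)) ≤ 1 := by
      have h5 : Real.log g ≤ c * N := by
        rw [div_le_iff₀ hc] at hN1
        linarith
      have h6 : g * Real.exp (-(c * N)) = Real.exp (Real.log g - c * N) := by
        rw [sub_eq_add_neg, Real.exp_add, Real.exp_log (by linarith)]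
      rw [h6]
      exact Real.exp_le_one_iff.2 (by linarith)
    have h7 : 0 ≤ Real.exp (-c) ^ j := by positivity
    nlinarith
  have h8 : ∑ j ∈ range k, f (N + j) ≤ 1 + 1 / c :=
    (sum_le_sum fun j _ => h3 j).trans ((geom_le _ (Real.exp_pos _).le
      (by rw [← Real.exp_zero]; exact Real.exp_lt_exp.2 (by linarith)) k).trans (exp_inv c hc))
  have h9 : (N : ℝ) * G ≤ (Real.log g / c + 1) * G := mul_le_mul_of_nonneg_right hN2 hG
  linarith

end NUA_

theorem p_NUA (hL : T_LRG) : T_NUA := by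
  intro n d hn hd hdn
  obtain ⟨h13, hL13, hlog⟩ := hL n hn (hd.trans hdn)
  have hn0 : (13000 : ℝ) ≤ n := by exact_mod_cast h13
  generalize Real.logb 2 (n : ℝ) = L at hd hL13 hlog ⊢
  have hd0 : 0 < d := by linarith
  have hnp : (0 : ℝ) < n := by linarith
  set g : ℝ := 64 * L ^ 2 with hg
  have hg1 : 1 ≤ g := by rw [hg]; nlinarith
  set G : ℝ := Real.logb 2 g with hGd
  have hG0 : 0 ≤ G := Real.logb_nonneg (by norm_num) hg1
  have hs0 : 0 ≤ √L := Real.sqrt_nonneg _
  have hs2 : √L * √L = L := Real.mul_self_sqrt (by linarith)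
  have hs3 : 3.6 ≤ √L := Real.le_sqrt_of_sq_le (by norm_num; linarith)
  have hLn : 1000 * L ≤ n := hd.trans hdn
  set c : ℝ := d / (2 * n) with hc
  have hc0 : 0 < c := by positivity
  have hc1 : c ≤ 1 / 2 := by
    rw [hc, div_le_iff₀ (by positivity)]
    linarith
  have hdc : d / n = 2 * c := by
    rw [hc]
    field_simp
  have hcL : 500 * L ≤ c * n := by
    rw [hc]
    have : d / (2 * n) * n = d / 2 := by field_simp
    rw [this]
    linarith
  have hcinv : 1 / c ≤ n / (500 * L) := by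
    rw [div_le_div_iff₀ hc0 (by linarith)]
    linarith
  -- the first sum
  have hA : ∑ i ∈ range (n / 64), L * (1 - c) ^ (i / 2) ≤ 0.004 * n := by
    rw [← mul_sum]
    have h1 := NUA_.half_le (1 - c) (by linarith) (by linarith) (n / 64)
    rw [sub_sub_cancel] at h1
    have h2 : L * ∑ i ∈ range (n / 64), (1 - c) ^ (i / 2) ≤ L * (2 * c⁻¹) :=
      mul_le_mul_of_nonneg_left h1 (by linarith)
    have h3 : L * (2 * c⁻¹) ≤ L * (2 * (n / (500 * L))) := by
      rw [one_div] at hcinv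
      exact mul_le_mul_of_nonneg_left (by linarith) (by linarith)
    have h4 : L * (2 * ((n : ℝ) / (500 * L))) = 0.004 * n := by
      have : L ≠ 0 := by linarith
      field_simp
      norm_num
    linarith
  -- the second sum
  have hB : ∑ i ∈ range (n / 64), min G (g * (1 - 2 * c) ^ (i - i / 2)) ≤
      (Real.log g / c + 1) * G + (1 + 1 / c) := by
    refine NUA_.min_sum G g c hG0 hg1 hc0 _ _ (fun i => min_le_left _ _) (fun i => ?_)
      (fun i => ?_)
    · refine (min_le_right _ _).trans (mul_le_mul_of_nonneg_left ?_ (by linarith))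
      have h1 : 1 - 2 * c ≤ Real.exp (-(2 * c)) := by
        have := Real.add_one_le_exp (-(2 * c))
        linarith
      have h2 : (1 - 2 * c) ^ (i - i / 2) ≤ Real.exp (-(2 * c)) ^ (i - i / 2) :=
        pow_le_pow_left₀ (by linarith) h1 _
      refine h2.trans ?_
      rw [← Real.exp_nat_mul]
      apply Real.exp_le_exp.2
      have h3 : (i : ℝ) ≤ 2 * ((i - i / 2 : ℕ) : ℝ) := by
        have : i ≤ 2 * (i - i / 2) := by omega
        exact_mod_cast this
      nlinarith
    · exact le_min hG0 (mul_nonneg (by linarith) (pow_nonneg (by linarith) _))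
  have hlg : Real.log g = G * Real.log 2 := by
    rw [hGd, Real.logb, div_mul_cancel₀ _ (Real.log_pos (by norm_num)).ne']
  have hl2 : Real.log 2 ≤ 0.6932 := by
    have := Real.log_two_lt_d9
    linarith
  have hl20 : 0 < Real.log 2 := Real.log_pos (by norm_num)
  have hGG : G * G ≤ 16 * L := by nlinarith
  have hC : Real.log g / c * G ≤ 0.0222 * n := by
    have h1 : Real.log g / c * G = (G * G) * Real.log 2 * (1 / c) := by
      rw [hlg]
      ring
    have h2 : (G * G) * Real.log 2 ≤ 16 * L * 0.6932 :=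
      mul_le_mul hGG hl2 hl20.le (by linarith)
    have h3 : (G * G) * Real.log 2 * (1 / c) ≤ 16 * L * 0.6932 * (n / (500 * L)) :=
      mul_le_mul h2 hcinv (by positivity) (by linarith)
    have h4 : 16 * L * 0.6932 * ((n : ℝ) / (500 * L)) = 0.0221824 * n := by
      have : L ≠ 0 := by linarith
      field_simp
      norm_num
    rw [h1]
    linarith
  have hD : G ≤ 0.0012 * n := by nlinarith
  have hE : 1 / c ≤ 0.0002 * n := by
    refine hcinv.trans ?_
    rw [div_le_iff₀ (by linarith)]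
    nlinarith
  have hF : ((n / 64 : ℕ) : ℝ) ≤ n / 64 := Nat.cast_div_le
  rw [sum_add_distrib, hdc]
  have hsum : (Real.log g / c + 1) * G = Real.log g / c * G + G := by ring
  rw [hsum] at hB
  linarith

end Pool.Agent.RNB
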