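import Pool.Agent.RNB.Targets

/-!
# RNB, target REC
-/

set_option autoImplicit false

open Finset Classical

namespace Pool.Agent.RNB

open Pool.Agent.Lib.Recon

theorem p_REC (hSEL : T_SEL) : T_REC := by
  intro V _ G H h3 hyp hd
  obtain ⟨A, hA, hcnt⟩ := hSEL V G h3 hd
  have hsame : ∀ u v, u ∉ A → v ∉ A → (∀ a ∈ A, G.Adj a u ↔ G.Adj a v) → u = v := by
    intro u v hu hv huv
    by_contra hne
    obtain ⟨a, ha, hna⟩ := hA u v hu hv hne
    exact hna (huv a ha)
  have hT : TwinHyp G A := by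
    intro u v hu hv huv w hw1 hw2
    rw [hsame u v hu hv huv]
  have hC : ∀ u, u ∉ A → (cls G A u).card ≤ 1 := by
    intro u hu
    rw [Finset.card_le_one]
    intro x hx y hy
    simp only [cls, Finset.mem_filter, Finset.mem_univ, true_and] at hx hy
    exact hsame x y hx.1 hy.1 (fun a ha => (hx.2 a ha).symm.trans (hy.2 a ha))
  have hAut : 1 ≤ (AutEmbs G A).card := by
    rw [Nat.one_le_iff_ne_zero, ← Nat.pos_iff_ne_zero, Finset.card_pos]
    refine ⟨fun a => (a : V), ?_⟩
    simp only [AutEmbs, Finset.mem_filter, Finset.mem_univ, true_and]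
    exact ⟨Equiv.refl V, fun x y => Iff.rfl, fun a => rfl⟩
  refine master G H (Equiv.refl V) (fun v => hyp v) A 1 hT hC ?_
  calc (2 * (Embs G A G).card) ^ (1 + 1) < 2 ^ (Fintype.card V - A.card) := by
        simpa using hcnt
    _ ≤ 2 ^ (Fintype.card V - A.card) * (AutEmbs G A).card ^ (1 + 1) := by
        refine Nat.le_mul_of_pos_right _ (pow_pos hAut _)

end Pool.Agent.RNB
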