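import Pool.Agent.RNB.Targets

/-!
# RNB, target RES: resampling one entry
-/

set_option autoImplicit false

open Finset Classical

namespace Pool.Agent.RNB

open Pool.Agent.Lib.Recon

namespace RES_

/-- exchange of a vertex and the entry `i` of a sequence -/
noncomputable def swp (V : Type) (k : ℕ) (i : Fin k) :
    V × (Fin k → V) ≃ V × (Fin k → V) where
  toFun p := (p.2 i, Function.update p.2 i p.1)
  invFun p := (p.2 i, Function.update p.2 i p.1)
  left_inv := by
    rintro ⟨v, x⟩
    simp
  right_inv := by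
    rintro ⟨v, x⟩
    simp

end RES_

theorem p_RES : T_RES := by
  intro V _ k i h hh
  have h1 : ∑ p : V × (Fin k → V), h p.2 p.1 = ∑ p : V × (Fin k → V), h p.2 (p.2 i) := by
    rw [← Equiv.sum_comp (RES_.swp V k i) (fun p => h p.2 p.1)]
    exact Finset.sum_congr rfl fun p _ => hh p.2 p.1 (p.2 i)
  rw [Fintype.sum_prod_type, Fintype.sum_prod_type] at h1
  have h2 : ∑ v, ∑ x, h x v = ∑ _v : V, ∑ x : Fin k → V, h x (x i) := h1
  rw [h2, Finset.sum_const, Finset.card_univ, nsmul_eq_mul]

end Pool.Agent.RNB
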