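import Pool.Agent.RNB.Targets

/-!
# RNB: SEL (MP_552896_co): choice of the set `A`
-/

set_option autoImplicit false

open Finset Classical

namespace Pool.Agent.RNB

open Pool.Agent.Lib.Recon

/-- the numerical part: from the bounds of the factors to the count -/
theorem SEL_num (n a e b z c : ℕ) (L : ℝ) (hn : 13000 ≤ n) (hL : 13 ≤ L)
    (hLn : (2 : ℝ) ^ L = n) (hb : 64 * L ^ 2 * b ≤ n * L) (ha : a ≤ b + n / 64)
    (he : e ≤ c * n ^ b * z) (hc : 32 * a ≤ n → (c : ℝ) ≤ (2 : ℝ) ^ ((13 / 64 : ℝ) * n))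
    (hz : (z : ℝ) ≤ 2 * (2 : ℝ) ^ (4 * (9 / 200 * (n : ℝ)))) :
    (2 * e) ^ 2 < 2 ^ (n - a) := by
  have hn' : (13000 : ℝ) ≤ n := by exact_mod_cast hn
  have hLb : 64 * (L * b) ≤ n := by
    have h1 : L * (64 * (L * b)) ≤ L * n := by nlinarith [hb]
    exact le_of_mul_le_mul_left h1 (by linarith)
  have hb0 : (0 : ℝ) ≤ b := Nat.cast_nonneg b
  have hbn : 832 * (b : ℝ) ≤ n := by nlinarith [hLb, mul_le_mul_of_nonneg_right hL hb0]
  have hk : ((n / 64 : ℕ) : ℝ) ≤ n / 64 := by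
    have := @Nat.cast_div_le ℝ _ _ _ n 64
    simpa using this
  have ha' : (a : ℝ) ≤ b + (n / 64 : ℕ) := by exact_mod_cast ha
  have ha32 : 32 * (a : ℝ) ≤ n := by linarith
  have ha32' : 32 * a ≤ n := by exact_mod_cast ha32
  have hc' := hc ha32'
  have hnb : ((n : ℝ)) ^ b = (2 : ℝ) ^ (L * b) := by
    rw [← hLn, ← Real.rpow_natCast, ← Real.rpow_mul (by norm_num)]
  have he' : (e : ℝ) ≤ (2 : ℝ) ^ ((13 / 64 : ℝ) * n) * (2 : ℝ) ^ (L * b) *
      (2 * (2 : ℝ) ^ (4 * (9 / 200 * (n : ℝ)))) := by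
    have h1 : (e : ℝ) ≤ c * (n : ℝ) ^ b * z := by exact_mod_cast he
    refine h1.trans ?_
    rw [hnb]
    gcongr
  have h2 : (2 : ℝ) ^ ((13 / 64 : ℝ) * n) * (2 : ℝ) ^ (L * b) *
      (2 * (2 : ℝ) ^ (4 * (9 / 200 * (n : ℝ)))) =
      (2 : ℝ) ^ ((13 / 64 : ℝ) * n + L * b + 1 + 4 * (9 / 200 * (n : ℝ))) := by
    rw [Real.rpow_add (by norm_num), Real.rpow_add (by norm_num), Real.rpow_add (by norm_num),
      Real.rpow_one]
    ring
  rw [h2] at he'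
  have h3 : (2 * (e : ℝ)) ^ 2 ≤
      (2 : ℝ) ^ (2 * ((13 / 64 : ℝ) * n + L * b + 1 + 4 * (9 / 200 * (n : ℝ)) + 1)) := by
    have h4 : 2 * (e : ℝ) ≤
        (2 : ℝ) ^ ((13 / 64 : ℝ) * n + L * b + 1 + 4 * (9 / 200 * (n : ℝ)) + 1) := by
      rw [Real.rpow_add (by norm_num) _ 1, Real.rpow_one]
      linarith
    have h5 : (0 : ℝ) ≤ 2 * (e : ℝ) := by positivity
    calc (2 * (e : ℝ)) ^ 2 ≤
        ((2 : ℝ) ^ ((13 / 64 : ℝ) * n + L * b + 1 + 4 * (9 / 200 * (n : ℝ)) + 1)) ^ 2 :=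
          pow_le_pow_left₀ h5 h4 2
      _ = _ := by
        rw [← Real.rpow_natCast, ← Real.rpow_mul (by norm_num)]
        congr 1
        push_cast
        ring
  have h6 : (2 : ℝ) ^ (2 * ((13 / 64 : ℝ) * n + L * b + 1 + 4 * (9 / 200 * (n : ℝ)) + 1)) <
      (2 : ℝ) ^ (((n - a : ℕ) : ℝ)) := by
    apply Real.rpow_lt_rpow_of_exponent_lt (by norm_num)
    have han : a ≤ n := by omega
    rw [Nat.cast_sub han]
    linarith
  have h7 : ((2 * e) ^ 2 : ℝ) < (2 : ℝ) ^ (n - a) := by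
    rw [Real.rpow_natCast] at h6
    exact lt_of_le_of_lt h3 h6
  exact_mod_cast h7

theorem p_SEL (hNET : T_NET) (hEWW : T_EWW) (hEMB : T_EMB) (hCHO : T_CHO) (hBIN : T_BIN)
    (hLRG : T_LRG) (hNUA : T_NUA) (hDIS : T_DIS) : T_SEL := by
  intro V _ G hV hd
  obtain ⟨n, hn⟩ : ∃ n, n = Fintype.card V := ⟨_, rfl⟩
  obtain ⟨L, hL⟩ : ∃ L, L = Real.logb 2 (n : ℝ) := ⟨_, rfl⟩
  rw [← hn] at hV hd
  have hdn : 1000 * Real.logb 2 (n : ℝ) ≤ n := by
    have h1 : 1 < Fintype.card V := by omega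
    obtain ⟨u, v, huv⟩ := Fintype.one_lt_card_iff.mp h1
    refine (hd u v huv).trans ?_
    rw [hn]
    exact_mod_cast Finset.card_le_univ _
  obtain ⟨hn13, hL13, -⟩ := hLRG n hV hdn
  have hn0 : (0 : ℝ) < n := by
    have : 0 < n := by omega
    exact_mod_cast this
  have hL13' : 13 ≤ L := by rw [hL]; exact hL13
  have hg1 : (1 : ℝ) ≤ 64 * Real.logb 2 (n : ℝ) ^ 2 := by
    nlinarith [hL13]
  have hd0 : (0 : ℝ) ≤ 1000 * Real.logb 2 (n : ℝ) := by linarith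
  obtain ⟨A0, hA0, hSS⟩ := hNET V G (64 * Real.logb 2 (n : ℝ) ^ 2) (by linarith)
  have hW := hEWW V G A0 (n / 64) (64 * Real.logb 2 (n : ℝ) ^ 2)
    (1000 * Real.logb 2 (n : ℝ)) (by omega) hg1 hd0 (by rw [← hn]; exact hdn) hSS hd
  have hN := hNUA n (1000 * Real.logb 2 (n : ℝ)) hV le_rfl hdn
  have hD := hDIS V G (1000 * Real.logb 2 (n : ℝ)) (by omega) (by rw [← hn]) (by
    rw [← hn]; exact hdn) hd
  rw [← hn] at hW hD hA0
  have hW' : ∑ x : Fin (n / 64) → V, WW G A0 x ≤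
      (Fintype.card V : ℝ) ^ (n / 64) * (9 / 200 * (n : ℝ)) := by
    rw [← hn]
    exact hW.trans (mul_le_mul_of_nonneg_left hN (by positivity))
  obtain ⟨A, hA, hAc, hdis, hAut⟩ := hCHO V G A0 (n / 64) (9 / 200 * (n : ℝ)) (by omega)
    (by positivity) hW' (by rw [← hn]; exact hD)
  refine ⟨A, hdis, ?_⟩
  rw [← hn]
  have hE := hEMB V G A0 A hA
  rw [← hn] at hE
  refine SEL_num n A.card (Embs G A G).card A0.card (Aut0 G A0 A).card (n.choose A.card) L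
    hn13 hL13' ?_ ?_ hAc hE (fun h => hBIN n A.card h) hAut
  · rw [hL]
    exact Real.rpow_logb (by norm_num) (by norm_num) hn0
  · rw [hL]
    exact hA0

end Pool.Agent.RNB
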