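import Pool.Agent.RNB.Targets

/-!
# RNB, TRE: the weights of the sequences similar to a given one
-/

set_option autoImplicit false

open Finset Classical

namespace Pool.Agent.RNB

open Pool.Agent.Lib.Recon

theorem TRE_.snoc_last {V : Type} {k : ℕ} (y : Fin k → V) (b : V) :
    (Fin.snoc y b : Fin (k + 1) → V) (Fin.last k) = b := Fin.snoc_last (α := fun _ => V) b y

theorem TRE_.snoc_cast {V : Type} {k : ℕ} (y : Fin k → V) (b : V) (i : Fin k) :
    (Fin.snoc y b : Fin (k + 1) → V) i.castSucc = y i :=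
  Fin.snoc_castSucc (α := fun _ => V) b y i

theorem TRE_.Bi_snoc {V : Type} [Fintype V] (A : Finset V) {k : ℕ} (y : Fin k → V) (b : V)
    (i : ℕ) (hi : i ≤ k) : Bi A (Fin.snoc y b : Fin (k + 1) → V) i = Bi A y i := by
  unfold Bi
  congr 1
  ext v
  simp only [mem_image, mem_filter, mem_univ, true_and]
  constructor
  · rintro ⟨j, hj, rfl⟩
    have hjk : (j : ℕ) < k := by omega
    exact ⟨⟨j, hjk⟩, hj, (TRE_.snoc_cast y b ⟨j, hjk⟩).symm⟩
  · rintro ⟨j, hj, rfl⟩
    exact ⟨j.castSucc, hj, TRE_.snoc_cast y b j⟩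

theorem TRE_.ww_snoc {V : Type} [Fintype V] (G : SimpleGraph V) (A : Finset V) {k : ℕ}
    (y : Fin k → V) (b : V) :
    ww G A (Fin.snoc y b : Fin (k + 1) → V) = ww G A y * ((cz G (Bi A y k) b : ℝ))⁻¹ := by
  unfold ww
  rw [Fin.prod_univ_castSucc]
  congr 1
  · refine prod_congr rfl fun i _ => ?_
    rw [TRE_.snoc_cast, Fin.val_castSucc, TRE_.Bi_snoc A y b i i.2.le]
  · rw [TRE_.snoc_last, Fin.val_last, TRE_.Bi_snoc A y b k le_rfl]

theorem TRE_.ww_nonneg {V : Type} [Fintype V] (G : SimpleGraph V) (A : Finset V) {k : ℕ}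
    (y : Fin k → V) : 0 ≤ ww G A y :=
  prod_nonneg fun _ _ => by positivity

theorem TRE_.mem_Bi {V : Type} [Fintype V] (A : Finset V) {k : ℕ} (y : Fin k → V) (v : V) :
    v ∈ Bi A y k ↔ v ∈ A ∨ ∃ i, y i = v := by
  unfold Bi
  simp only [mem_union, mem_image, mem_filter, mem_univ, true_and]
  constructor
  · rintro (h | ⟨j, -, h⟩)
    · exact Or.inl h
    · exact Or.inr ⟨j, h⟩
  · rintro (h | ⟨j, h⟩)
    · exact Or.inl h
    · exact Or.inr ⟨j, j.2, h⟩

theorem TRE_.inner {V : Type} [Fintype V] (G : SimpleGraph V) (A : Finset V) {k : ℕ}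
    (x : Fin (k + 1) → V) (y : Fin k → V) :
    ∑ b ∈ univ.filter (fun b : V => Sim G A x (Fin.snoc y b : Fin (k + 1) → V)),
      ((cz G (Bi A y k) b : ℝ))⁻¹ ≤ 1 := by
  set S := univ.filter (fun b : V => Sim G A x (Fin.snoc y b : Fin (k + 1) → V)) with hS
  -- the clauses for the last entry
  have h1 : ∀ b ∈ S, ∀ i : Fin k, (x (Fin.last k) = x i.castSucc ↔ b = y i) := by
    intro b hb i
    have h := (mem_filter.1 hb).2.1 (Fin.last k) i.castSucc
    rwa [TRE_.snoc_last, TRE_.snoc_cast] at h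
  have h2 : ∀ b ∈ S, ∀ a ∈ A, (x (Fin.last k) = a ↔ b = a) := by
    intro b hb a ha
    have h := (mem_filter.1 hb).2.2.1 (Fin.last k) a ha
    rwa [TRE_.snoc_last] at h
  have h3 : ∀ b ∈ S, ∀ i : Fin k, (G.Adj (x i.castSucc) (x (Fin.last k)) ↔ G.Adj (y i) b) := by
    intro b hb i
    have h := (mem_filter.1 hb).2.2.2.1 i.castSucc (Fin.last k)
    rwa [TRE_.snoc_last, TRE_.snoc_cast] at h
  have h4 : ∀ b ∈ S, ∀ a ∈ A, (G.Adj a (x (Fin.last k)) ↔ G.Adj a b) := by
    intro b hb a ha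
    have h := (mem_filter.1 hb).2.2.2.2 (Fin.last k) a ha
    rwa [TRE_.snoc_last] at h
  have huniq : ∀ b ∈ S, b ∈ Bi A y k → ∀ b' ∈ S, b' = b := by
    intro b hb hbB b' hb'
    rcases (TRE_.mem_Bi A y b).1 hbB with h | ⟨i, hi⟩
    · exact (h2 b' hb' b h).1 ((h2 b hb b h).2 rfl)
    · rw [← hi]
      exact (h1 b' hb' i).1 ((h1 b hb i).2 hi.symm)
  rcases S.eq_empty_or_nonempty with h0 | ⟨b₀, hb₀⟩
  · rw [h0, sum_empty]
    exact zero_le_one
  by_cases hB : b₀ ∈ Bi A y k
  · have hsub : S ⊆ {b₀} := fun b hb => mem_singleton.2 (huniq b₀ hb₀ hB b hb)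
    refine (sum_le_sum_of_subset_of_nonneg hsub fun _ _ _ => by positivity).trans ?_
    rw [sum_singleton, cz, if_pos hB]
    norm_num
  · have hnB : ∀ b ∈ S, b ∉ Bi A y k := by
      intro b hb hbB
      rw [huniq b hb hbB b₀ hb₀] at hB
      exact hB hbB
    have hadj : ∀ b ∈ S, ∀ v ∈ Bi A y k, (G.Adj v b₀ ↔ G.Adj v b) := by
      intro b hb v hv
      rcases (TRE_.mem_Bi A y v).1 hv with h | ⟨i, hi⟩
      · exact (h4 b₀ hb₀ v h).symm.trans (h4 b hb v h)
      · rw [← hi]
        exact (h3 b₀ hb₀ i).symm.trans (h3 b hb i)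
    have hcl : ∀ b ∈ S, cl G (Bi A y k) b = cl G (Bi A y k) b₀ := by
      intro b hb
      ext v
      simp only [cl, mem_filter, mem_univ, true_and]
      refine and_congr_right fun _ => forall₂_congr fun c hc => ?_
      rw [hadj b hb c hc]
    have hsub : S ⊆ cl G (Bi A y k) b₀ := by
      intro b hb
      rw [cl, mem_filter]
      exact ⟨mem_univ _, hnB b hb, fun c hc => hadj b hb c hc⟩
    have hcard := card_le_card hsub
    have hpos : 0 < S.card := card_pos.2 ⟨b₀, hb₀⟩
    have hval : ∀ b ∈ S, ((cz G (Bi A y k) b : ℝ))⁻¹ =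
        (((cl G (Bi A y k) b₀).card : ℝ))⁻¹ := by
      intro b hb
      rw [cz, if_neg (hnB b hb), hcl b hb]
    rw [sum_congr rfl hval, sum_const, nsmul_eq_mul, ← div_eq_mul_inv]
    refine (div_le_one ?_).2 ?_
    · exact_mod_cast hpos.trans_le hcard
    · exact_mod_cast hcard

theorem TRE_.sim_init {V : Type} [Fintype V] (G : SimpleGraph V) (A : Finset V) {k : ℕ}
    (x : Fin (k + 1) → V) (y : Fin k → V) (b : V)
    (h : Sim G A x (Fin.snoc y b : Fin (k + 1) → V)) :
    Sim G A (fun i : Fin k => x i.castSucc) y := by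
  obtain ⟨h1, h2, h3, h4⟩ := h
  refine ⟨fun i j => ?_, fun i a ha => ?_, fun i j => ?_, fun i a ha => ?_⟩
  · have := h1 i.castSucc j.castSucc
    rwa [TRE_.snoc_cast, TRE_.snoc_cast] at this
  · have := h2 i.castSucc a ha
    rwa [TRE_.snoc_cast] at this
  · have := h3 i.castSucc j.castSucc
    rwa [TRE_.snoc_cast, TRE_.snoc_cast] at this
  · have := h4 i.castSucc a ha
    rwa [TRE_.snoc_cast] at this

theorem p_TRE : T_TRE := by
  intro V _ G A k
  induction k with
  | zero =>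
    intro x
    calc ∑ y ∈ univ.filter (fun y : Fin 0 → V => Sim G A x y), ww G A y
        ≤ ∑ y : Fin 0 → V, ww G A y :=
          sum_le_sum_of_subset_of_nonneg (filter_subset _ _) fun y _ _ => TRE_.ww_nonneg G A y
      _ = 1 := by
          rw [Fintype.sum_unique]
          simp [ww]
      _ ≤ 1 := le_rfl
  | succ k ih =>
    intro x
    have hsum : ∑ y ∈ univ.filter (fun y : Fin (k + 1) → V => Sim G A x y), ww G A y =
        ∑ y : Fin k → V, ww G A y *
          ∑ b ∈ univ.filter (fun b : V => Sim G A x (Fin.snoc y b : Fin (k + 1) → V)),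
            ((cz G (Bi A y k) b : ℝ))⁻¹ := by
      rw [sum_filter]
      rw [← (Fin.snocEquiv (fun _ : Fin (k + 1) => V)).sum_comp
        (fun y : Fin (k + 1) → V => if Sim G A x y then ww G A y else 0)]
      rw [Fintype.sum_prod_type_right]
      refine sum_congr rfl fun y _ => ?_
      rw [mul_sum, sum_filter]
      refine sum_congr rfl fun b _ => ?_
      have he : (Fin.snocEquiv (fun _ : Fin (k + 1) => V)) (b, y) =
          (Fin.snoc y b : Fin (k + 1) → V) := rfl
      rw [he]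
      by_cases h : Sim G A x (Fin.snoc y b : Fin (k + 1) → V)
      · rw [if_pos h, if_pos h, TRE_.ww_snoc]
      · rw [if_neg h, if_neg h]
    rw [hsum]
    refine le_trans ?_ (ih (fun i : Fin k => x i.castSucc))
    rw [sum_filter]
    refine sum_le_sum fun y _ => ?_
    by_cases h : Sim G A (fun i : Fin k => x i.castSucc) y
    · rw [if_pos h]
      exact mul_le_of_le_one_right (TRE_.ww_nonneg G A y) (TRE_.inner G A x y)
    · rw [if_neg h]
      have h0 : univ.filter (fun b : V => Sim G A x (Fin.snoc y b : Fin (k + 1) → V)) = ∅ := by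
        rw [filter_eq_empty_iff]
        intro b _ hb
        exact h (TRE_.sim_init G A x y b hb)
      rw [h0, sum_empty, mul_zero]

end Pool.Agent.RNB
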