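import Mathlib
import Pool.Agent.RNum.Near
import Pool.Agent.RNB.P_NET
import Pool.Agent.RNB.P_KEY
import Pool.Agent.RNB.P_LGT
import Pool.Agent.RNB.P_AVO
import Pool.Agent.RNB.P_IND
import Pool.Agent.RNB.P_RES
import Pool.Agent.RNB.P_CST
import Pool.Agent.RNB.P_EWW
import Pool.Agent.RNB.P_TRE
import Pool.Agent.RNB.P_AUT
import Pool.Agent.RNB.P_EMB
import Pool.Agent.RNB.P_CHO
import Pool.Agent.RNB.P_BIN
import Pool.Agent.RNB.P_LRG
import Pool.Agent.RNB.P_NUA
import Pool.Agent.RNB.P_NUB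
import Pool.Agent.RNB.P_DIS
import Pool.Agent.RNB.P_SEL
import Pool.Agent.RNB.P_REC

/-!
# RNB: every deck has at most `n ^ (1000 log₂ n + 3)` reconstructions
-/

set_option autoImplicit false

open Finset Classical

namespace Pool.Agent.RNB

open Pool.Agent.Lib.Recon Pool.Agent.RNum

/-- a graph in which any two vertices are distinguished by at least `1000 log₂ n` others is
reconstructible -/
theorem rec_all : T_REC :=
  p_REC (p_SEL p_NET (p_EWW (p_LGT p_KEY) p_RES (p_CST p_KEY p_AVO p_IND)) p_EMB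
    (p_CHO (p_AUT p_TRE)) p_BIN p_LRG (p_NUA p_LRG) (p_DIS p_AVO (p_NUB p_LRG)))

/-- **The number of reconstructions**, for graphs on the same vertex set -/
theorem number_log {V ι : Type} [Fintype V] [Fintype ι] (G : SimpleGraph V)
    (hn : 3 ≤ Fintype.card V) (H : ι → SimpleGraph V)
    (hyp : ∀ i v, CardIso G (H i) v v)
    (hne : ∀ i j, i ≠ j → ¬ ∃ α : V ≃ V, ∀ x y, (H i).Adj x y ↔ (H j).Adj (α x) (α y)) :
    (Fintype.card ι : ℝ) ≤
      (Fintype.card V : ℝ) ^ (1000 * Real.logb 2 (Fintype.card V) + 3) := by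
  have hnR : (3 : ℝ) ≤ Fintype.card V := by exact_mod_cast hn
  have hL : 0 ≤ 1000 * Real.logb 2 (Fintype.card V) := by
    have := Real.logb_nonneg (b := 2) (by norm_num) (x := (Fintype.card V : ℝ)) (by linarith)
    linarith
  by_cases hcard : Fintype.card ι ≤ 1
  · have h1 : (Fintype.card ι : ℝ) ≤ 1 := by exact_mod_cast hcard
    exact h1.trans (Real.one_le_rpow (by linarith) (by linarith))
  have hcode : ∀ i, ∃ (a b : V) (c : Bool)
      (t : Fin ⌊1000 * Real.logb 2 (Fintype.card V)⌋₊ → V), Cd G (H i) a b (c = true) t := by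
    intro i
    have hnt : Nontrivial ι := Fintype.one_lt_card_iff_nontrivial.1 (by omega)
    obtain ⟨j, hj⟩ := exists_ne i
    have hyp' : ∀ v, CardIso (H i) (H j) v v := fun v =>
      CardIso_trans (hyp i v).symm (hyp j v)
    obtain ⟨u, v, huv, h⟩ : ∃ u v, u ≠ v ∧
        ((dset (H i) u v).card : ℝ) ≤ 1000 * Real.logb 2 (Fintype.card V) := by
      by_contra hcon
      push Not at hcon
      exact hne i j hj.symm (rec_all V (H i) (H j) hn hyp' fun u v huv => (hcon u v huv).le)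
    exact ⟨u, exists_cd huv (hyp i u) (Nat.le_floor h)⟩
  have h1 := card_le_codes G H hne hcode
  have h2 : (Fintype.card ι : ℝ) ≤
      2 * (Fintype.card V : ℝ) ^ (⌊1000 * Real.logb 2 (Fintype.card V)⌋₊ + 2) := by
    exact_mod_cast h1
  calc (Fintype.card ι : ℝ)
      ≤ 2 * (Fintype.card V : ℝ) ^ (⌊1000 * Real.logb 2 (Fintype.card V)⌋₊ + 2) := h2
    _ ≤ (Fintype.card V : ℝ) *
        (Fintype.card V : ℝ) ^ (⌊1000 * Real.logb 2 (Fintype.card V)⌋₊ + 2) := by
        gcongr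
        linarith
    _ = (Fintype.card V : ℝ) ^ (((⌊1000 * Real.logb 2 (Fintype.card V)⌋₊ + 3 : ℕ)) : ℝ) := by
        rw [Real.rpow_natCast]
        ring
    _ ≤ _ := by
        apply Real.rpow_le_rpow_of_exponent_le (by linarith)
        push_cast
        linarith [Nat.floor_le hL]

/-- **The number of reconstructions** with all three bounds, for graphs on the same vertex set -/
theorem number_min {V ι : Type} [Fintype V] [Fintype ι] (G : SimpleGraph V)
    (hn : 3 ≤ Fintype.card V) (m : ℝ)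
    (hm : 1000 * Real.logb 2 (Fintype.card V) ≤ m ∨
      (∃ D : ℕ, 16 * (Real.logb 2 D) ^ 2 ≤ m ∧
        ((∀ v, (nb G v).card ≤ D) ∨ ∀ v, (nb Gᶜ v).card ≤ D)) ∨
      (1 ≤ m ∧ ∃ u v, u ≠ v ∧ ((dset G u v).card : ℝ) ≤ m))
    (H : ι → SimpleGraph V) (hyp : ∀ i v, CardIso G (H i) v v)
    (hne : ∀ i j, i ≠ j → ¬ ∃ α : V ≃ V, ∀ x y, (H i).Adj x y ↔ (H j).Adj (α x) (α y)) :
    (Fintype.card ι : ℝ) ≤ (Fintype.card V : ℝ) ^ (m + 3) := by
  have hnR : (1 : ℝ) ≤ Fintype.card V := by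
    have : 1 ≤ Fintype.card V := by omega
    exact_mod_cast this
  rcases hm with hm | ⟨D, hm, hD⟩ | ⟨hm, u, v, huv, h⟩
  · exact (number_log G hn H hyp hne).trans
      (Real.rpow_le_rpow_of_exponent_le hnR (by linarith))
  · exact (number G hn D hD H hyp hne).trans
      (Real.rpow_le_rpow_of_exponent_le hnR (by linarith))
  · have h1 := number_near G hn ⌊m⌋₊ ((Nat.one_le_floor_iff m).2 hm) u v huv (Nat.le_floor h)
      H hyp hne
    have h2 : (Fintype.card ι : ℝ) ≤ (Fintype.card V : ℝ) ^ ((⌊m⌋₊ + 3 : ℕ) : ℝ) := by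
      rw [Real.rpow_natCast]
      exact_mod_cast h1
    refine h2.trans (Real.rpow_le_rpow_of_exponent_le hnR ?_)
    push_cast
    linarith [Nat.floor_le (show (0 : ℝ) ≤ m by linarith)]

/-- **The number of reconstructions**, for truncated clique lattices -/
theorem number_min_clique {V : Type} [Fintype V] (G : SimpleGraph V)
    (hn : 3 ≤ Fintype.card V) (m : ℝ)
    (hm : 1000 * Real.logb 2 (Fintype.card V) ≤ m ∨
      (∃ D : ℕ, 16 * (Real.logb 2 D) ^ 2 ≤ m ∧
        ((∀ v, (G.neighborSet v).ncard ≤ D) ∨ ∀ v, (Gᶜ.neighborSet v).ncard ≤ D)) ∨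
      (1 ≤ m ∧ ∃ u v, u ≠ v ∧
        ({w : V | w ≠ u ∧ w ≠ v ∧ ¬ (G.Adj w u ↔ G.Adj w v)}.ncard : ℝ) ≤ m))
    (ι : Type) [Fintype ι] (W : ι → Type) [∀ i, Fintype (W i)] (H : ∀ i, SimpleGraph (W i))
    (f : ∀ i, V ≃ W i)
    (hdeck : ∀ i, ∀ v : V,
      Nonempty ({s : Finset V // s.Nonempty ∧ G.IsClique (s : Set V) ∧ v ∉ s} ≃o
        {t : Finset (W i) // t.Nonempty ∧ (H i).IsClique (t : Set (W i)) ∧ f i v ∉ t}))
    (hne : ∀ i j, i ≠ j →
      ¬ Nonempty ({s : Finset (W i) // s.Nonempty ∧ (H i).IsClique (s : Set (W i))} ≃o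
        {t : Finset (W j) // t.Nonempty ∧ (H j).IsClique (t : Set (W j))})) :
    (Fintype.card ι : ℝ) ≤ (Fintype.card V : ℝ) ^ (m + 3) := by
  have hnb : ∀ (K : SimpleGraph V) (v : V), (nb K v).card = (K.neighborSet v).ncard := by
    intro K v
    rw [← Set.ncard_coe_finset (nb K v)]
    congr 1
    ext w
    rw [Finset.mem_coe, mem_nb]
    rfl
  refine number_min G hn m ?_ (fun i => (H i).comap (f i)) ?_ ?_
  · rcases hm with hm | ⟨D, hm, hD⟩ | ⟨hm, u, v, huv, h⟩
    · exact Or.inl hm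
    · refine Or.inr (Or.inl ⟨D, hm, ?_⟩)
      rcases hD with hD | hD
      · left
        intro v
        rw [hnb]
        exact hD v
      · right
        intro v
        rw [hnb]
        exact hD v
    · refine Or.inr (Or.inr ⟨hm, u, v, huv, le_trans (le_of_eq ?_) h⟩)
      rw [← Set.ncard_coe_finset (dset G u v)]
      congr 2
      ext w
      rw [Finset.mem_coe, mem_dset]
      rfl
  · intro i v
    obtain ⟨e⟩ := hdeck i v
    obtain ⟨σ, h1, h2⟩ := cardIso_of_orderIso G (H i) (f i) v e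
    refine ⟨σ.trans (f i).symm, by rw [Equiv.trans_apply, h1, Equiv.symm_apply_apply], ?_⟩
    intro x y hx hy
    rw [h2 x y hx hy]
    simp
  · intro i j hij hα
    apply hne i j hij
    obtain ⟨α, hα⟩ := hα
    apply orderIso_of_iso
    refine ⟨((f i).symm.trans α).trans (f j), fun x y => ?_⟩
    have h1 := hα ((f i).symm x) ((f i).symm y)
    simp only [SimpleGraph.comap_adj, Equiv.apply_symm_apply] at h1
    exact h1

end Pool.Agent.RNB
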