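import Pool.Agent.RNB.Targets

/-!
# RNB: target NUB
-/

set_option autoImplicit false

open Finset Classical

namespace Pool.Agent.RNB

open Pool.Agent.Lib.Recon

theorem p_NUB (hL : T_LRG) : T_NUB := by
  intro n d hn hd hdn
  obtain ⟨h1, h2, -⟩ := hL n hn (hd.trans hdn)
  set L := Real.logb 2 n with hLdef
  have hn0 : (13000 : ℝ) ≤ n := by exact_mod_cast h1
  have hnp : (0 : ℝ) < n := by linarith
  have hk : (n : ℝ) / 65 ≤ ((n / 64 : ℕ) : ℝ) := by
    have h3 : n < 64 * (n / 64) + 64 := by omega
    have h4 : (n : ℝ) < 64 * ((n / 64 : ℕ) : ℝ) + 64 := by exact_mod_cast h3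
    rw [div_le_iff₀ (by norm_num)]
    linarith
  have hd0 : 0 ≤ d / n := by
    have : 0 ≤ d := by linarith
    positivity
  have hd1 : 0 ≤ 1 - d / n := by
    rw [sub_nonneg, div_le_one hnp]
    exact hdn
  have h3 : (1 - d / n) ^ (n / 64) ≤ Real.exp (-(15 * L)) := by
    calc (1 - d / n) ^ (n / 64) ≤ (Real.exp (-(d / n))) ^ (n / 64) := by
          refine pow_le_pow_left₀ hd1 ?_ _
          have := Real.add_one_le_exp (-(d / n))
          linarith
      _ = Real.exp (-(((n / 64 : ℕ) : ℝ) * (d / n))) := by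
          rw [← Real.exp_nat_mul]
          ring_nf
      _ ≤ Real.exp (-(15 * L)) := by
          refine Real.exp_le_exp.2 (neg_le_neg ?_)
          calc 15 * L ≤ d / 65 := by
                rw [le_div_iff₀ (by norm_num)]
                linarith
            _ = (n : ℝ) / 65 * (d / n) := by
                field_simp
            _ ≤ ((n / 64 : ℕ) : ℝ) * (d / n) := mul_le_mul_of_nonneg_right hk hd0
  have h4 : (n : ℝ) ^ 2 ≤ Real.exp (2 * L) := by
    have h5 : (n : ℝ) = Real.exp (Real.log n) := (Real.exp_log hnp).symm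
    have h6 : Real.log n ≤ L := by
      rw [hLdef, Real.logb, le_div_iff₀ (Real.log_pos (by norm_num))]
      have h7 : Real.log 2 ≤ 1 := by
        have := Real.log_two_lt_d9
        linarith
      have h8 : 0 ≤ Real.log n := Real.log_nonneg (by linarith)
      nlinarith
    calc (n : ℝ) ^ 2 = Real.exp (Real.log n) ^ 2 := by rw [← h5]
      _ = Real.exp (2 * Real.log n) := by
          rw [← Real.exp_nat_mul]
          norm_num
      _ ≤ Real.exp (2 * L) := Real.exp_le_exp.2 (by linarith)
  calc (n : ℝ) ^ 2 * (1 - d / n) ^ (n / 64)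
      ≤ Real.exp (2 * L) * Real.exp (-(15 * L)) :=
        mul_le_mul h4 h3 (pow_nonneg hd1 _) (Real.exp_pos _).le
    _ = Real.exp (-(13 * L)) := by
        rw [← Real.exp_add]
        ring_nf
    _ ≤ Real.exp (-3) := Real.exp_le_exp.2 (by linarith)
    _ ≤ 1 / 8 := by
        rw [Real.exp_neg, inv_eq_one_div]
        refine one_div_le_one_div_of_le (by norm_num) ?_
        have h5 := Real.exp_one_gt_d9
        have h6 : Real.exp 3 = Real.exp 1 ^ 3 := by
          rw [← Real.exp_nat_mul]
          norm_num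
        rw [h6]
        have h7 : (2 : ℝ) ^ 3 ≤ Real.exp 1 ^ 3 := pow_le_pow_left₀ (by norm_num) (by linarith) 3
        linarith

end Pool.Agent.RNB
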