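import Pool.Agent.RNB.Defs

/-!
# RNB: exact targets with complete proofs in the docstrings

One file per target: `Pool/Agent/RNB/P_X.lean`, theorem `Pool.Agent.RNB.p_X (other targets) : T_X`.
`dset G u v` (from `Pool/Agent/Lib/Recon/Local.lean`) is the set of the vertices `w ≠ u, v` which
are adjacent to exactly one of `u, v` (`mem_dset`). In every file: `open Finset Classical`.
-/

set_option autoImplicit false

open Finset Classical

namespace Pool.Agent.RNB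

open Pool.Agent.Lib.Recon

/-! ## A. the net -/

/-- NET. Proof: let `Φ A = ∑ v ∈ Aᶜ, logb 2 (cl G A v).card` (for `v ∉ A` the class contains `v`, so
all terms are `≥ 0`) and choose `A` with `Φ A + g * A.card` minimal. Comparing with `∅`
(`cl G ∅ v = univ`): `g * A.card ≤ Φ ∅ = n logb 2 n`. Let `z ∉ A`, `A' = insert z A`. For `v ∉ A'`:
`cl G A' v ⊆ cl G A v`, so `logb 2 (cl G A' v).card ≤ logb 2 (cl G A v).card`, and for
`v ∈ SS G A z` even `logb 2 (cl G A' v).card ≤ logb 2 (cl G A v).card - 1`. So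
`Φ A' ≤ Φ A - (SS G A z).card`; minimality gives `Φ A ≤ Φ A' + g`, so `(SS G A z).card ≤ g`. -/
def T_NET : Prop := ∀ (V : Type) [Fintype V] (G : SimpleGraph V) (g : ℝ), 0 < g →
  ∃ A : Finset V, g * A.card ≤ Fintype.card V * Real.logb 2 (Fintype.card V) ∧
    ∀ z, z ∉ A → ((SS G A z).card : ℝ) ≤ g

/-- KEY. Proof. (1) `y ∈ cl G A v` says that `v, y` have the same neighbours in `A`, so `z ∉ A` by
`mem_dset` (`G.Adj` is symmetric). With `A' = insert z A` the sets `cl G A' v` and `cl G A' y` are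
disjoint (elements of the first are adjacent to `z` iff `v` is, those of the second iff `y` is) and
both are contained in `cl G A v = cl G A y`. So one of them has at most half of the elements: `v ∈
SS G A z` or `y ∈ SS G A z` (`v, y ∉ A`, `v, y ≠ z`). (2) if `v ∈ SS G A z` and `y ∈ cl G (insert z
A) v` then `y ∉ insert z A`, `cl G (insert z A) y = cl G (insert z A) v`, `cl G A y = cl G A v`, so
`y ∈ SS G A z`. -/
def T_KEY : Prop := ∀ (V : Type) [Fintype V] (G : SimpleGraph V) (A : Finset V) (v : V), v ∉ A →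
  (∀ y z, y ∈ cl G A v → v ≠ y → z ∈ dset G v y → z ∉ A ∧ (z ∈ ZZ G A v ∨ z ∈ ZZ G A y)) ∧
  ∀ z, v ∈ SS G A z → cl G (insert z A) v ⊆ SS G A z

/-- LGT (from KEY). Proof: let `Q` be the set of the `v ∉ A` with `(ZZ G A v).card < d / 2`. If
`v ≠ y` are in `Q` and `y ∈ cl G A v` then `dset G v y ⊆ ZZ G A v ∪ ZZ G A y` by KEY, which has less
than `d` elements, a contradiction. So the sets `cl G A v`, `v ∈ Q`, are pairwise disjoint (if `w`
is in two of them, then `y ∈ cl G A v`), and `logb 2 c ≤ c` for naturals `c`; hence the sum is at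
most `∑ v ∈ Q, (cl G A v).card = (Q.biUnion ..).card ≤ Fintype.card V`. -/
def T_LGT : Prop := ∀ (V : Type) [Fintype V] (G : SimpleGraph V) (A : Finset V) (d : ℝ),
  (∀ u v, u ≠ v → d ≤ ((dset G u v).card : ℝ)) →
  ∑ v ∈ univ.filter (fun v => v ∉ A ∧ ((ZZ G A v).card : ℝ) < d / 2),
    Real.logb 2 ((cl G A v).card : ℝ) ≤ Fintype.card V

/-! ## B. random sequences (uniform on `Fin k → V`, by counting) -/

/-- AVO. Proof: the set is `Fintype.piFinset (fun j => if j ∈ J then Zᶜ else univ)`, of cardinality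
`(n - Z.card) ^ J.card * n ^ (k - J.card)` with `n = Fintype.card V` (`Fintype.card_piFinset`); and
`n - Z.card ≤ n (1 - t/n)`. If `n = 0` then `t = 0`, `1 - t / n = 1`, trivial. -/
def T_AVO : Prop := ∀ (V : Type) [Fintype V] (k : ℕ) (J : Finset (Fin k)) (Z : Finset V) (t : ℝ),
  0 ≤ t → t ≤ Z.card →
  ((univ.filter (fun x : Fin k → V => ∀ j ∈ J, x j ∉ Z)).card : ℝ) ≤
    (1 - t / Fintype.card V) ^ J.card * (Fintype.card V : ℝ) ^ k

/-- IND. Proof: `m x y j = if j ∈ J then x j else y j`. The map `(x, y) ↦ (m x y, m y x)` is an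
involution of pairs, `F x * H y = F (m x y) * H (m x y)`. So
`(∑ F) (∑ H) = ∑_(x,y) F x H y = ∑_(x,y) F (m x y) H (m x y) = ∑_(x,y) F x H x = n^k ∑ F x H x`
(`Finset.sum_product`, `Equiv.sum_comp` or `Fintype.sum_bijective`). -/
def T_IND : Prop := ∀ (V : Type) [Fintype V] (k : ℕ) (J : Finset (Fin k))
  (F H : (Fin k → V) → ℝ), (∀ x y, (∀ j ∈ J, x j = y j) → F x = F y) →
  (∀ x y, (∀ j, j ∉ J → x j = y j) → H x = H y) →
  (Fintype.card V : ℝ) ^ k * ∑ x, F x * H x = (∑ x, F x) * ∑ x, H x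

/-- RES. Proof: `∑ v, ∑ x, h x v = ∑ v, ∑ x, h (update x i v) v`, and
`(v, x) ↦ (x i, update x i v)` is an involution of `V × (Fin k → V)` under which
`h (update x i v) v = h x' (x' i)` with `x' = update x i v`; so the double sum is
`∑_(v,x) h x (x i) = n ∑ x, h x (x i)`. -/
def T_RES : Prop := ∀ (V : Type) [Fintype V] (k : ℕ) (i : Fin k) (h : (Fin k → V) → V → ℝ),
  (∀ x u v, h (Function.update x i u) v = h x v) →
  (Fintype.card V : ℝ) * ∑ x, h x (x i) = ∑ v, ∑ x, h x v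

/-- CST (from KEY, AVO, IND): cost of a vertex `v` at time `i`. Proof: `n = Fintype.card V ≥ 1`,
`N = n ^ k`, `i' = i / 2`, `J1 = {j | j < i'}`, `J2 = {j | i' ≤ j < i}` (`J1.card = i'`,
`J2.card = i - i'` as `i ≤ k`). Always `0 ≤ logb 2 cz ≤ logb 2 n` (`v ∈ cl G B v` if `v ∉ B`). Let
`E1` be the set of the `x` with `x j ∉ ZZ G A v` for all `j ∈ J1`; by AVO with `t = d / 2`:
`E1.card ≤ N (1 - d/(2n))^i'`, which gives the first term (`(d/2)/n = d/(2n)`).
For `x ∉ E1` let `f x ∈ ZZ G A v` be the entry `x j` with the least such `j ∈ J1`, `B = Bi A x i`;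
`insert (f x) A ⊆ B`. If `v ∈ B` then `cz = 1`, the cost is `0`. Otherwise
`cl G B v ⊆ Y x := cl G (insert (f x) A) v ⊆ SS G A (f x)` (KEY (2); `f x ∈ ZZ` means `f x ∉ A`,
`v ∈ SS G A (f x)`), so `cz ≤ g`, the cost is `≤ logb 2 g`. Also `logb 2 c ≤ c - 1` for naturals
`c ≥ 1`, and every `y ∈ cl G B v`, `y ≠ v`, is in `Y x` and satisfies `x j ∉ dset G v y` for
`j ∈ J2` (`x j ∈ B`). So the cost is `≤ ∑ y, F y x * H y x` with
`F y x = 1` if `x ∉ E1`, `y ≠ v`, `y ∈ Y x` and `0` otherwise (depends on `J1` only),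
`H y x = 1` if `∀ j ∈ J2, x j ∉ dset G v y` and `0` otherwise (depends on `J2`, disjoint from `J1`).
By IND, AVO (with `t = d`, for `y ≠ v`) `∑ x, F y x * H y x ≤ (∑ x, F y x) (1 - d/n)^(i - i')`, and
`∑ y, F y x ≤ (Y x).card ≤ g`. So `∑_{x ∉ E1} cost ≤ N min (logb 2 g) (g (1 - d/n)^(i - i'))`. -/
def T_CST : Prop := ∀ (V : Type) [Fintype V] (G : SimpleGraph V) (A : Finset V) (k i : ℕ)
  (g d : ℝ) (v : V), i ≤ k → 1 ≤ g → 0 ≤ d → d ≤ Fintype.card V →
  (∀ z, z ∉ A → ((SS G A z).card : ℝ) ≤ g) → (∀ u w, u ≠ w → d ≤ ((dset G u w).card : ℝ)) →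
  v ∉ A → d / 2 ≤ ((ZZ G A v).card : ℝ) →
  ∑ x : Fin k → V, Real.logb 2 (cz G (Bi A x i) v) ≤ (Fintype.card V : ℝ) ^ k *
    (Real.logb 2 (Fintype.card V) * (1 - d / (2 * Fintype.card V)) ^ (i / 2) +
      min (Real.logb 2 g) (g * (1 - d / Fintype.card V) ^ (i - i / 2)))

/-- EWW (from LGT, RES, CST): the mean of `WW`. Proof: for each `i : Fin k` apply RES to
`h x v = logb 2 (cz G (Bi A x i) v)` (`Bi A x i` does not use `x i`): `n ∑ x, h x (x i) =
∑ v, ∑ x, h x v`. `v ∈ A`: `cz = 1`, `0`. `v ∉ A`, `(ZZ G A v).card < d / 2`: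
`cz ≤ (cl G A v).card` (as `A ⊆ Bi`), so by LGT these `v` contribute at most `n^k * n` in total. The
other `v` contribute at most the bound of CST each. Divide by `n` and sum over `i`. -/
def T_EWW : Prop := ∀ (V : Type) [Fintype V] (G : SimpleGraph V) (A : Finset V) (k : ℕ)
  (g d : ℝ), 1 ≤ Fintype.card V → 1 ≤ g → 0 ≤ d → d ≤ Fintype.card V →
  (∀ z, z ∉ A → ((SS G A z).card : ℝ) ≤ g) → (∀ u w, u ≠ w → d ≤ ((dset G u w).card : ℝ)) →
  ∑ x : Fin k → V, WW G A x ≤ (Fintype.card V : ℝ) ^ k * ((k : ℝ) + ∑ i ∈ range k,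
    (Real.logb 2 (Fintype.card V) * (1 - d / (2 * Fintype.card V)) ^ (i / 2) +
      min (Real.logb 2 g) (g * (1 - d / Fintype.card V) ^ (i - i / 2))))

/-! ## C. automorphisms and embeddings -/

/-- TRE. Proof: induction on `k` (`Fin.snoc`, `Fin.init`; `Fin.prod_univ_castSucc`; the sum over
`Fin (k+1) → V` is the sum over `y' : Fin k → V` and `b : V` of the value at `Fin.snoc y' b`). If
`y = snoc y' b` is `Sim` to `x` then `y'` is `Sim` to `x' = Fin.init x`, and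
`ww G A y = ww G A y' * (cz G (Bi A y' k) b)⁻¹` (`Bi A y i = Bi A y' i` for `i ≤ k`). For fixed `y'`
it is enough that `∑ b, (cz G B b)⁻¹ ≤ 1`, `B = Bi A y' k = A ∪ univ.image y'`, over the `b` which
are allowed. If the last entry of `x` is in `A` or equal to an earlier entry, then `b` is
determined by `y'` and in `B`, `cz = 1`. Otherwise every allowed `b` is not in `B` (by the first
two clauses of `Sim`) and any two allowed `b, b'` have the same neighbours in `B` (last two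
clauses), so all allowed `b` are in one class `cl G B b`, whose cardinality is `cz G B b`. -/
def T_TRE : Prop := ∀ (V : Type) [Fintype V] (G : SimpleGraph V) (A : Finset V) (k : ℕ)
  (x : Fin k → V), ∑ y ∈ univ.filter (fun y : Fin k → V => Sim G A x y), ww G A y ≤ 1

/-- AUT (from TRE). Proof: let `X` be the set of the sequences `x` with `A0 ∪ univ.image x = A`. For
`x ∈ X` and `σ ∈ Aut0 G A0 A` the sequence `σ ∘ x` is `Sim G A0 x` (`x i ∈ A`), and `σ` is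
determined by `σ ∘ x`, so by TRE `∑ σ ∈ Aut0, ww G A0 (σ ∘ x) ≤ 1`. Sum over `x ∈ X`. For fixed `σ`
the map `x ↦ σ ∘ x` is a bijection of `X` (`σ` maps `A` to `A` since it fixes the other vertices,
and it fixes `A0`), so `∑ x ∈ X, ww G A0 (σ ∘ x) = ∑ x ∈ X, ww G A0 x`. -/
def T_AUT : Prop := ∀ (V : Type) [Fintype V] (G : SimpleGraph V) (A0 A : Finset V) (k : ℕ),
  A0 ⊆ A → ((Aut0 G A0 A).card : ℝ) *
    ∑ x ∈ univ.filter (fun x : Fin k → V => A0 ∪ univ.image x = A), ww G A0 x ≤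
      ((univ.filter (fun x : Fin k → V => A0 ∪ univ.image x = A)).card : ℝ)

/-- EMB. Proof: `Embs G A G` is the set of the induced embeddings `γ : A → V` (`IsEmb`: injective,
`G.Adj a b ↔ G.Adj (γ a) (γ b)`), from `Pool/Agent/Lib/Recon/Master2.lean`. Map `γ` to the pair
(`univ.image γ`, a set with `A.card` elements; restriction of `γ` to `A0`): at most
`(n choose |A|) * n ^ |A0|` pairs. Each fibre has at most `(Aut0 G A0 A).card` elements: fix `γ0` in
it; for `γ` in it let `σ a = γ0⁻¹ (γ a)` for `a ∈ A` (the images are equal) and `σ v = v` for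
`v ∉ A`; this is a permutation, it fixes `A0`, it is in `Aut0 G A0 A`, and it determines `γ`. -/
def T_EMB : Prop := ∀ (V : Type) [Fintype V] (G : SimpleGraph V) (A0 A : Finset V), A0 ⊆ A →
  (Embs G A G).card ≤ (Fintype.card V).choose A.card * Fintype.card V ^ A0.card *
    (Aut0 G A0 A).card

/-- CHO (from AUT). Proof: `N = n ^ k > 0`. `cz ≥ 1`, so `WW ≥ 0` and `ww = 2 ^ (- WW)`. Let
`b2 = {x | 4 M < WW G A0 x}`; by Markov `b2.card ≤ N / 4` (if `M = 0` then `WW = 0` everywhere and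
`b2` is empty). Call a set `A` bad if there are `u ≠ v` with `a ∉ dset G u v` for all `a ∈ A`; the
number of `x` with `A0 ∪ univ.image x` bad is at most `N / 8` by hypothesis. For a set `A` let
`X A = {x | A0 ∪ univ.image x = A}`. There is `A`, not bad, `X A` nonempty, with
`2 * (X A ∩ b2).card ≤ (X A).card`: otherwise, summing over the sets `A` which are not bad,
`b2.card ≥ (N - N/8)/2 > N/4`. For this `A`: `A0 ⊆ A`, `A.card ≤ A0.card + k`, and (AUT)
`(Aut0 ..).card * ((X A).card / 2 * 2^(-4M)) ≤ (X A).card`. Not bad: for `u ≠ v` outside `A` there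
is `a ∈ A` with `a ∈ dset G u v`. -/
def T_CHO : Prop := ∀ (V : Type) [Fintype V] (G : SimpleGraph V) (A0 : Finset V) (k : ℕ) (M : ℝ),
  1 ≤ Fintype.card V → 0 ≤ M →
  ∑ x : Fin k → V, WW G A0 x ≤ (Fintype.card V : ℝ) ^ k * M →
  ((univ.filter (fun x : Fin k → V => ∃ u v, u ≠ v ∧ ∀ j, x j ∉ dset G u v)).card : ℝ) ≤
    (Fintype.card V : ℝ) ^ k / 8 →
  ∃ A : Finset V, A0 ⊆ A ∧ A.card ≤ A0.card + k ∧
    (∀ u v, u ∉ A → v ∉ A → u ≠ v → ∃ a ∈ A, ¬ (G.Adj a u ↔ G.Adj a v)) ∧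
    ((Aut0 G A0 A).card : ℝ) ≤ 2 * (2 : ℝ) ^ (4 * M)

/-! ## D. numerical estimates -/

/-- BIN. Proof: `(1 + s)^n ≥ (n choose a) s^a` with `s = 1/31` (`add_pow`, one term of the sum), so
`n choose a ≤ (32/31)^n * 31^a`, `31^a ≤ 31^(n/32)` (real exponent), and
`(32/31)^32 * 31 ≤ 2^(13/2)`, i.e. `((32/31)^32 * 31)^2 ≤ 2^13` (`norm_num`). Raise to the power
`n/32`. -/
def T_BIN : Prop := ∀ n a : ℕ, 32 * a ≤ n →
  ((n.choose a : ℕ) : ℝ) ≤ (2 : ℝ) ^ ((13 / 64 : ℝ) * n)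

/-- LRG. Proof: `n ≥ 1000 L`, `L = logb 2 n`. `n ≥ 3` gives `L ≥ 1`, `n ≥ 1000 ≥ 2^9`, `L ≥ 9`,
`n ≥ 9000 > 2^13`, `L ≥ 13`, `n ≥ 13000`. Second: with `t = √L ≥ 3.6`,
`logb 2 (64 L^2) = 6 + 4 logb 2 t` and `logb 2 t ≤ 2 + (t - 4)/(4 log 2) ≤ t - 3/2` (`log x ≤ x - 1`
for `x = t/4`; `log 2 ≥ 0.69`), so it is `≤ 4 t`. -/
def T_LRG : Prop := ∀ n : ℕ, 3 ≤ n → 1000 * Real.logb 2 n ≤ n →
  13000 ≤ n ∧ 13 ≤ Real.logb 2 n ∧
    Real.logb 2 (64 * Real.logb 2 n ^ 2) ≤ 4 * √(Real.logb 2 n)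

/-- NUA (from LRG). Proof: `L = logb 2 n`, `g = 64 L^2`, `k = n / 64`. (1) `k ≤ n / 64`. (2)
`∑_{i<k} (1 - d/(2n))^(i/2) ≤ 2 ∑_{j} (1 - d/(2n))^j ≤ 2 * (2n/d)` (each value of `i / 2` occurs at
most twice; geometric series), so the first part is at most `4 n L / d ≤ 4 n / 1000`. (3)
`i - i/2 ≥ i/2`, so `g (1 - d/n)^(i - i/2) ≤ g exp (- d i / (2 n))`. Let `i1 = (2 n / d) log g`. The
at most `i1 + 1` values `i ≤ i1` contribute at most `logb 2 g` each; by LRG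
`i1 logb 2 g = (2 n / d) log 2 (logb 2 g)^2 ≤ (2 n/(1000 L)) * 0.6932 * 16 L ≤ 0.0222 n` and
`logb 2 g ≤ 4 √L ≤ 4 √(n/1000) ≤ 0.0012 n` (`n ≥ 13000`). The other ones contribute at most
`∑_{i > i1} exp (- d (i - i1)/(2n)) ≤ 1 + 2 n / d ≤ 0.0003 n` (`∑_j exp(-c j) ≤ 1 + 1/c`). The sum
is at most `(0.015625 + 0.004 + 0.0222 + 0.0012 + 0.0003) n ≤ 0.045 n`. -/
def T_NUA : Prop := ∀ (n : ℕ) (d : ℝ), 3 ≤ n → 1000 * Real.logb 2 n ≤ d → d ≤ n →
  ((n / 64 : ℕ) : ℝ) + ∑ i ∈ range (n / 64), (Real.logb 2 n * (1 - d / (2 * n)) ^ (i / 2) +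
    min (Real.logb 2 (64 * Real.logb 2 n ^ 2))
      (64 * Real.logb 2 n ^ 2 * (1 - d / n) ^ (i - i / 2))) ≤ (9 / 200 : ℝ) * n

/-- NUB (from LRG). Proof: `(1 - d/n)^k ≤ exp (- d k / n)`, `k = n / 64 ≥ n / 65` (`n ≥ 13000`), so
the exponent is at most `- 1000 L / 65 ≤ - 15 L`, `L = logb 2 n ≥ 13`, and `n^2 = exp (2 L log 2) ≤
exp (2 L)`; so the product is at most `exp (-13 L) ≤ 1/8`. -/
def T_NUB : Prop := ∀ (n : ℕ) (d : ℝ), 3 ≤ n → 1000 * Real.logb 2 n ≤ d → d ≤ n →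
  (n : ℝ) ^ 2 * (1 - d / n) ^ (n / 64) ≤ 1 / 8

/-! ## E. the theorem -/

/-- DIS (from AVO, NUB). Proof: union bound over the at most `n^2` pairs `u ≠ v`, AVO with
`J = univ`, `Z = dset G u v`, `t = d`; `k = n / 64`. -/
def T_DIS : Prop := ∀ (V : Type) [Fintype V] (G : SimpleGraph V) (d : ℝ), 3 ≤ Fintype.card V →
  1000 * Real.logb 2 (Fintype.card V) ≤ d → d ≤ Fintype.card V →
  (∀ u v, u ≠ v → d ≤ ((dset G u v).card : ℝ)) →
  ((univ.filter (fun x : Fin (Fintype.card V / 64) → V =>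
    ∃ u v, u ≠ v ∧ ∀ j, x j ∉ dset G u v)).card : ℝ) ≤
      (Fintype.card V : ℝ) ^ (Fintype.card V / 64) / 8

/-- SEL (from NET, EWW, EMB, CHO, BIN, LRG, NUA, DIS). Proof: `n = Fintype.card V`, `L = logb 2 n`,
`g = 64 L^2 ≥ 1`, `k = n / 64`. If there are no two vertices `u ≠ v`.. (`n ≥ 3`, so there are) the
hypothesis gives `d ≤ n - 2 ≤ n`. NET gives `A0`, `A0.card ≤ n L / g = n / (64 L) ≤ n / 64`,
`L * A0.card ≤ n / 64`. EWW and NUA: mean of `WW` at most `M = (9/200) n`. CHO gives `A`,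
`A.card ≤ n / 32`, so `32 * A.card ≤ n`. EMB and BIN:
`e = (Embs G A G).card ≤ 2^(13 n/64) * 2^(n/64) * 2 * 2^(9 n / 50)` (`n ^ A0.card = 2^(L A0.card)`).
So `(2 e)^2 ≤ 2^(4 + (7/16 + 9/25) n) < 2^(n - A.card)` since `7/16 + 9/25 + 1/32 < 83/100` and
`n ≥ 13000`. -/
def T_SEL : Prop := ∀ (V : Type) [Fintype V] (G : SimpleGraph V), 3 ≤ Fintype.card V →
  (∀ u v, u ≠ v → 1000 * Real.logb 2 (Fintype.card V) ≤ ((dset G u v).card : ℝ)) →
  ∃ A : Finset V, (∀ u v, u ∉ A → v ∉ A → u ≠ v → ∃ a ∈ A, ¬ (G.Adj a u ↔ G.Adj a v)) ∧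
    (2 * (Embs G A G).card) ^ 2 < 2 ^ (Fintype.card V - A.card)

/-- REC (from SEL). Proof: `master` (`Pool/Agent/Lib/Recon/Master2.lean`) with `s = 1`: `TwinHyp G
A` holds vacuously (two vertices outside `A` with the same neighbours in `A` are equal), every class
`cls G A u` is `{u}`, and `(AutEmbs G A).card ≥ 1` (the identity of `V`, see `autEmbs` there). -/
def T_REC : Prop := ∀ (V : Type) [Fintype V] (G H : SimpleGraph V), 3 ≤ Fintype.card V →
  (∀ v, CardIso G H v v) →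
  (∀ u v, u ≠ v → 1000 * Real.logb 2 (Fintype.card V) ≤ ((dset G u v).card : ℝ)) →
  ∃ α : V ≃ V, ∀ x y, G.Adj x y ↔ H.Adj (α x) (α y)

end Pool.Agent.RNB
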